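import Mathlib

/-!
# `q`-Steiner systems `S_2[2,3,n]` on finite groups of exponent 2: elementary facts
-/

set_option autoImplicit false

namespace Pool.Agent.helper54.QU

/-- `𝓑` is a `q`-Steiner system `S_2[2,3,n]` on the group `E` of exponent 2 and order `2 ^ n`, that is on `F_2 ^ n`: a set of subgroups of order 8 (subspaces of dimension 3) such that every subgroup of order 4 (subspace of dimension 2)
is contained in exactly one of them. -/
def IsSystem (E : Type) [AddCommGroup E] (𝓑 : Set (AddSubgroup E)) : Prop :=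
  (∀ B ∈ 𝓑, Nat.card B = 8) ∧ ∀ L : AddSubgroup E, Nat.card L = 4 → ∃! B, B ∈ 𝓑 ∧ L ≤ B

/-- the same with pairs of points -/
structure Sys (E : Type) [AddCommGroup E] (𝓑 : Set (AddSubgroup E)) : Prop where
  two : ∀ z : E, z + z = 0
  h8 : ∀ B ∈ 𝓑, Nat.card B = 8
  ex : ∀ x y : E, x ≠ 0 → y ≠ 0 → x ≠ y → ∃ B ∈ 𝓑, x ∈ B ∧ y ∈ B
  uq : ∀ (x y : E) (B B' : AddSubgroup E), B ∈ 𝓑 → B' ∈ 𝓑 → x ≠ 0 → y ≠ 0 → x ≠ y → x ∈ B → y ∈ B → x ∈ B' → y ∈ B' → B = B'

section lin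
variable {E : Type} [AddCommGroup E]

theorem neg_eq' (h : ∀ z : E, z + z = 0) (x : E) : -x = x := neg_eq_of_add_eq_zero_left (h x)

theorem add_self_cancel (h : ∀ z : E, z + z = 0) (x y : E) : x + (x + y) = y := by
  rw [← add_assoc, h, zero_add]

theorem add_eq_zero' (h : ∀ z : E, z + z = 0) {x y : E} : x + y = 0 ↔ x = y := by
  rw [add_eq_zero_iff_eq_neg, neg_eq' h]

/-- the line through `x`, `y` -/
def lin (h : ∀ z : E, z + z = 0) (x y : E) : AddSubgroup E where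
  carrier := {z | z = 0 ∨ z = x ∨ z = y ∨ z = x + y}
  zero_mem' := Or.inl rfl
  add_mem' := by
    rintro a b (rfl | rfl | rfl | rfl) (rfl | rfl | rfl | rfl)
    · left; simp
    · right; left; simp
    · right; right; left; simp
    · right; right; right; simp
    · right; left; simp
    · left; exact h _
    · right; right; right; rfl
    · right; right; left; exact add_self_cancel h _ _
    · right; right; left; simp
    · right; right; right; exact add_comm _ _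
    · left; exact h _
    · right; left
      rw [add_comm x, add_self_cancel h]
    · right; right; right; simp
    · right; right; left
      rw [add_comm, add_self_cancel h]
    · right; left
      rw [add_assoc, h, add_zero]
    · left; exact h _
  neg_mem' := by
    intro a ha
    rw [neg_eq' h]
    exact ha

theorem mem_lin (h : ∀ z : E, z + z = 0) (x y z : E) : z ∈ lin h x y ↔ z = 0 ∨ z = x ∨ z = y ∨ z = x + y := Iff.rfl

theorem card_lin (h : ∀ z : E, z + z = 0) {x y : E} (hx : x ≠ 0) (hy : y ≠ 0) (hxy : x ≠ y) : Nat.card (lin h x y) = 4 := by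
  classical
  have h1 : ((lin h x y : AddSubgroup E) : Set E) = (({0, x, y, x + y} : Finset E) : Set E) := by
    ext z
    simp [lin]
  have h2 : Nat.card (lin h x y) = Set.ncard ((lin h x y : AddSubgroup E) : Set E) := rfl
  rw [h2, h1, Set.ncard_coe_finset]
  have h3 : x + y ≠ 0 := fun h0 => hxy ((add_eq_zero' h).1 h0)
  have h4 : x + y ≠ x := fun h0 => hy (by simpa using h0)
  have h5 : x + y ≠ y := fun h0 => hx (by simpa using h0)
  rw [Finset.card_insert_of_notMem, Finset.card_insert_of_notMem, Finset.card_insert_of_notMem, Finset.card_singleton]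
  · simpa using h5.symm
  · simpa using ⟨hxy, hy⟩
  · simpa using ⟨hx.symm, hy.symm, h3.symm⟩

theorem lin_le (h : ∀ z : E, z + z = 0) {x y : E} {B : AddSubgroup E} : lin h x y ≤ B ↔ x ∈ B ∧ y ∈ B := by
  constructor
  · intro h1
    exact ⟨h1 (Or.inr (Or.inl rfl)), h1 (Or.inr (Or.inr (Or.inl rfl)))⟩
  · rintro ⟨h1, h2⟩ z (rfl | rfl | rfl | rfl)
    · exact B.zero_mem
    · exact h1
    · exact h2
    · exact B.add_mem h1 h2

theorem IsSystem.sys {𝓑 : Set (AddSubgroup E)} (h : IsSystem E 𝓑) (h2 : ∀ z : E, z + z = 0) : Sys E 𝓑 := by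
  refine ⟨h2, h.1, ?_, ?_⟩
  · intro x y hx hy hxy
    obtain ⟨B, ⟨hB, hL⟩, -⟩ := h.2 (lin h2 x y) (card_lin h2 hx hy hxy)
    rw [lin_le] at hL
    exact ⟨B, hB, hL⟩
  · intro x y B B' hB hB' hx hy hxy h1 h3 h4 h5
    exact (h.2 (lin h2 x y) (card_lin h2 hx hy hxy)).unique ⟨hB, (lin_le h2).2 ⟨h1, h3⟩⟩ ⟨hB', (lin_le h2).2 ⟨h4, h5⟩⟩

/-- a subgroup of order 4 in a subgroup of order 8 has index 2 -/
theorem add_mem_of_card {L B : AddSubgroup E} (hL : Nat.card L = 4) (hB : Nat.card B = 8) (hLB : L ≤ B) {b b' : E} (hb : b ∈ B) (hb' : b' ∈ B)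
    (h1 : b ∉ L) (h2 : b' ∉ L) : b + b' ∈ L := by
  have h3 : (L.addSubgroupOf B).index = 2 := by
    have h4 := (L.addSubgroupOf B).card_mul_index
    have h5 : Nat.card (L.addSubgroupOf B) = 4 := by
      rw [← hL]
      exact Nat.card_congr (AddSubgroup.addSubgroupOfEquivOfLe hLB).toEquiv
    rw [h5, hB] at h4
    omega
  have h6 := AddSubgroup.add_mem_iff_of_index_two h3 (a := ⟨b, hb⟩) (b := ⟨b', hb'⟩)
  rw [AddSubgroup.mem_addSubgroupOf, AddSubgroup.mem_addSubgroupOf, AddSubgroup.mem_addSubgroupOf] at h6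
  exact h6.2 ⟨fun h => absurd h h1, fun h => absurd h h2⟩

theorem exists_notMem {L B : AddSubgroup E} (hL : Nat.card L = 4) (hB : Nat.card B = 8) : ∃ b ∈ B, b ∉ L := by
  by_contra h
  push Not at h
  have h1 : Nat.card B ∣ Nat.card L := AddSubgroup.card_dvd_of_le h
  rw [hL, hB] at h1
  omega

end lin

section blk
variable {E : Type} [AddCommGroup E]

open Classical in
/-- the block through `x` and `y` -/
noncomputable def blk (𝓑 : Set (AddSubgroup E)) (x y : E) : AddSubgroup E := if h : ∃ B ∈ 𝓑, x ∈ B ∧ y ∈ B then h.choose else ⊥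

theorem blk_spec {𝓑 : Set (AddSubgroup E)} (h : Sys E 𝓑) {x y : E} (hx : x ≠ 0) (hy : y ≠ 0) (hxy : x ≠ y) : blk 𝓑 x y ∈ 𝓑 ∧ x ∈ blk 𝓑 x y ∧ y ∈ blk 𝓑 x y := by
  have h1 := h.ex x y hx hy hxy
  rw [blk, dif_pos h1]
  exact h1.choose_spec

theorem blk_eq {𝓑 : Set (AddSubgroup E)} (h : Sys E 𝓑) {x y : E} (hx : x ≠ 0) (hy : y ≠ 0) (hxy : x ≠ y) {B : AddSubgroup E} (hB : B ∈ 𝓑) (h1 : x ∈ B) (h2 : y ∈ B) : blk 𝓑 x y = B := by
  obtain ⟨h3, h4, h5⟩ := blk_spec h hx hy hxy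
  exact h.uq x y _ _ h3 hB hx hy hxy h4 h5 h1 h2

/-- `W` contains the blocks of its lines -/
def Closed (𝓑 : Set (AddSubgroup E)) (W : AddSubgroup E) : Prop :=
  ∀ B ∈ 𝓑, ∀ x ∈ B, ∀ y ∈ B, x ≠ 0 → y ≠ 0 → x ≠ y → x ∈ W → y ∈ W → B ≤ W

open Classical in
theorem card_pts [Fintype E] {𝓑 : Set (AddSubgroup E)} (h : Sys E 𝓑) {B : AddSubgroup E} (hB : B ∈ 𝓑) : (Finset.univ.filter (fun z : E => z ∈ B ∧ z ≠ 0)).card = 7 := by
  have h1 := h.h8 B hB
  rw [Nat.card_eq_fintype_card, Fintype.card_subtype] at h1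
  have h2 : Finset.univ.filter (fun z : E => z ∈ B ∧ z ≠ 0) = (Finset.univ.filter (fun z : E => z ∈ B)).erase 0 := by
    ext z
    simp [and_comm]
  rw [h2, Finset.card_erase_of_mem (by simp), h1]

open Classical in
theorem card_pts' [Fintype E] (W : AddSubgroup E) : (Finset.univ.filter (fun z : E => z ∈ W ∧ z ≠ 0)).card = Nat.card W - 1 := by
  have h2 : Finset.univ.filter (fun z : E => z ∈ W ∧ z ≠ 0) = (Finset.univ.filter (fun z : E => z ∈ W)).erase 0 := by
    ext z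
    simp [and_comm]
  rw [h2, Finset.card_erase_of_mem (by simp), Nat.card_eq_fintype_card, Fintype.card_subtype]

open Classical in
theorem card_pts2 [Fintype E] (W : AddSubgroup E) {x : E} (hx : x ≠ 0) (hxW : x ∈ W) : (Finset.univ.filter (fun z : E => z ∈ W ∧ z ≠ 0 ∧ z ≠ x)).card = Nat.card W - 2 := by
  have h2 : Finset.univ.filter (fun z : E => z ∈ W ∧ z ≠ 0 ∧ z ≠ x) = (Finset.univ.filter (fun z : E => z ∈ W ∧ z ≠ 0)).erase x := by
    ext z
    simp only [Finset.mem_filter, Finset.mem_univ, true_and, Finset.mem_erase]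
    tauto
  rw [h2, Finset.card_erase_of_mem (by simp [hx, hxW]), card_pts']
  omega

open Classical in
/-- the blocks through `x` -/
noncomputable def star [Finite E] (𝓑 : Set (AddSubgroup E)) (x : E) : Finset (AddSubgroup E) := (Set.toFinite {B : AddSubgroup E | B ∈ 𝓑 ∧ x ∈ B}).toFinset

theorem mem_star [Finite E] (𝓑 : Set (AddSubgroup E)) (x : E) (B : AddSubgroup E) : B ∈ star 𝓑 x ↔ B ∈ 𝓑 ∧ x ∈ B := by
  rw [star, Set.Finite.mem_toFinset]
  rfl

open Classical in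
/-- a set of points is the disjoint union of its intersections with the blocks through `x` -/
theorem lsum [Fintype E] {𝓑 : Set (AddSubgroup E)} (h : Sys E 𝓑) {x : E} (hx : x ≠ 0) (A : Finset E) (hA : ∀ a ∈ A, a ≠ 0 ∧ a ≠ x) :
    A.card = ∑ B ∈ star 𝓑 x, (A.filter (fun z => z ∈ B)).card := by
  rw [Finset.card_eq_sum_card_fiberwise (f := fun z => blk 𝓑 x z) (t := star 𝓑 x)]
  · refine Finset.sum_congr rfl fun B hB => congrArg Finset.card (Finset.filter_congr fun z hz => ?_)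
    rw [mem_star] at hB
    obtain ⟨h1, h2⟩ := hA z hz
    constructor
    · intro h3
      rw [← h3]
      exact (blk_spec h hx h1 h2.symm).2.2
    · intro h3
      exact blk_eq h hx h1 h2.symm hB.1 hB.2 h3
  · intro z hz
    obtain ⟨h1, h2⟩ := hA z hz
    have h3 := blk_spec h hx h1 h2.symm
    exact (mem_star 𝓑 x _).2 ⟨h3.1, h3.2.1⟩

theorem pow_mod21 (f : ℕ) : 2 ^ f % 21 = 2 ^ (f % 6) % 21 := by
  conv_lhs => rw [← Nat.div_add_mod f 6, pow_add, pow_mul, Nat.mul_mod, Nat.pow_mod]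
  norm_num

open Classical in
/-- the dimension of a closed subspace is 1 or 3 modulo 6 -/
theorem closed_card [Fintype E] {𝓑 : Set (AddSubgroup E)} (h : Sys E 𝓑) {W : AddSubgroup E} (hW : Closed 𝓑 W) {f : ℕ} (hf : 2 ≤ f) (hc : Nat.card W = 2 ^ f) :
    f % 6 = 1 ∨ f % 6 = 3 := by
  have h4 : 4 ≤ 2 ^ f := by
    calc 4 = 2 ^ 2 := by norm_num
      _ ≤ 2 ^ f := Nat.pow_le_pow_right (by norm_num) hf
  -- the point `x`
  have hne : ∃ x ∈ W, x ≠ 0 := by
    have h1 := card_pts' W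
    have h2 : 0 < (Finset.univ.filter (fun z : E => z ∈ W ∧ z ≠ 0)).card := by
      rw [h1, hc]
      omega
    obtain ⟨x, hx⟩ := Finset.card_pos.1 h2
    rw [Finset.mem_filter] at hx
    exact ⟨x, hx.2⟩
  obtain ⟨x, hxW, hx⟩ := hne
  have h6 : 6 ∣ 2 ^ f - 2 := by
    have h1 := lsum h hx (Finset.univ.filter (fun z : E => z ∈ W ∧ z ≠ 0 ∧ z ≠ x)) (by
      intro a ha
      rw [Finset.mem_filter] at ha
      exact ha.2.2)
    rw [card_pts2 W hx hxW, hc] at h1
    rw [h1]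
    refine Finset.dvd_sum fun B hB => ?_
    rw [mem_star] at hB
    by_cases h2 : B ≤ W
    · have h3 : (Finset.univ.filter (fun z : E => z ∈ W ∧ z ≠ 0 ∧ z ≠ x)).filter (fun z => z ∈ B) = Finset.univ.filter (fun z : E => z ∈ B ∧ z ≠ 0 ∧ z ≠ x) := by
        ext z
        simp only [Finset.mem_filter, Finset.mem_univ, true_and]
        exact ⟨fun h => ⟨h.2, h.1.2⟩, fun h => ⟨⟨h2 h.1, h.2⟩, h.1⟩⟩
      rw [h3, card_pts2 B hx hB.2, h.h8 B hB.1]
    · have h3 : (Finset.univ.filter (fun z : E => z ∈ W ∧ z ≠ 0 ∧ z ≠ x)).filter (fun z => z ∈ B) = ∅ := by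
        rw [Finset.filter_eq_empty_iff]
        intro z hz hzB
        rw [Finset.mem_filter] at hz
        exact h2 (hW B hB.1 x hB.2 z hzB hx hz.2.2.1 hz.2.2.2.symm hxW hz.2.1)
      rw [h3, Finset.card_empty]
      exact dvd_zero _
  have h42 : 42 ∣ (2 ^ f - 1) * (2 ^ f - 1) - (2 ^ f - 1) := by
    have h1 := card_pts' W
    rw [hc] at h1
    rw [← h1, ← Finset.offDiag_card, Finset.card_eq_sum_card_image (fun p : E × E => blk 𝓑 p.1 p.2)]
    refine Finset.dvd_sum fun B hB => ?_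
    rw [Finset.mem_image] at hB
    obtain ⟨p, hp, rfl⟩ := hB
    rw [Finset.mem_offDiag, Finset.mem_filter, Finset.mem_filter] at hp
    obtain ⟨⟨-, h2, h3⟩, ⟨-, h5, h6⟩, h7⟩ := hp
    obtain ⟨h8, h9, h10⟩ := blk_spec h h3 h6 h7
    have hle := hW _ h8 _ h9 _ h10 h3 h6 h7 h2 h5
    have h11 : ((Finset.univ.filter (fun z : E => z ∈ W ∧ z ≠ 0)).offDiag).filter (fun q : E × E => blk 𝓑 q.1 q.2 = blk 𝓑 p.1 p.2) = (Finset.univ.filter (fun z : E => z ∈ blk 𝓑 p.1 p.2 ∧ z ≠ 0)).offDiag := by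
      ext q
      simp only [Finset.mem_filter, Finset.mem_offDiag, Finset.mem_univ, true_and]
      constructor
      · rintro ⟨⟨⟨a1, a2⟩, ⟨a3, a4⟩, a5⟩, a6⟩
        obtain ⟨b1, b2, b3⟩ := blk_spec h a2 a4 a5
        rw [a6] at b2 b3
        exact ⟨⟨b2, a2⟩, ⟨b3, a4⟩, a5⟩
      · rintro ⟨⟨a1, a2⟩, ⟨a3, a4⟩, a5⟩
        exact ⟨⟨⟨hle a1, a2⟩, ⟨hle a3, a4⟩, a5⟩, blk_eq h a2 a4 a5 h8 a1 a3⟩
    rw [h11, Finset.offDiag_card, card_pts h h8]
  have h7 : 7 ∣ (2 ^ f - 1) * (2 ^ f - 2) := by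
    have h1 : (2 ^ f - 1) * (2 ^ f - 1) - (2 ^ f - 1) = (2 ^ f - 1) * (2 ^ f - 2) := by
      obtain ⟨t, ht⟩ : ∃ t, 2 ^ f = t + 2 := ⟨2 ^ f - 2, by omega⟩
      rw [ht]
      have h2 : t + 2 - 1 = t + 1 := rfl
      have h3 : t + 2 - 2 = t := rfl
      rw [h2, h3]
      have h5 : (t + 1) * (t + 1) = (t + 1) * t + (t + 1) := by ring
      rw [h5, Nat.add_sub_cancel]
    rw [h1] at h42
    exact (by norm_num : 7 ∣ 42).trans h42
  rw [(by norm_num : Nat.Prime 7).dvd_mul] at h7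
  have h21 := pow_mod21 f
  have h8 : f % 6 < 6 := Nat.mod_lt _ (by norm_num)
  generalize 2 ^ f = t at *
  generalize f % 6 = r at *
  interval_cases r
  all_goals norm_num at h21 ⊢
  all_goals omega

end blk

end Pool.Agent.helper54.QU
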