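import Pool.Agent.helper54.QU.NonRed

/-!
# A set of subgroups of order 8 of a finite field of characteristic 2 which is invariant under multiplication: the number of its elements which contain 1 is 0 or 1 modulo 7
-/

set_option autoImplicit false

namespace Pool.Agent.helper54.QU

section
variable {K : Type} [Field K]

/-- the subgroup `t A` -/
def sm (t : K) (A : AddSubgroup K) : AddSubgroup K := A.map (AddMonoidHom.mulLeft t)

theorem mem_sm {t : K} (ht : t ≠ 0) (A : AddSubgroup K) (z : K) : z ∈ sm t A ↔ t⁻¹ * z ∈ A := by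
  rw [sm, AddSubgroup.mem_map]
  constructor
  · rintro ⟨a, ha, rfl⟩
    show t⁻¹ * (t * a) ∈ A
    rw [inv_mul_cancel_left₀ ht]
    exact ha
  · intro h
    exact ⟨t⁻¹ * z, h, mul_inv_cancel_left₀ ht z⟩

theorem sm_one (A : AddSubgroup K) : sm 1 A = A := by
  ext z
  rw [mem_sm one_ne_zero, inv_one, one_mul]

theorem sm_sm {s t : K} (hs : s ≠ 0) (ht : t ≠ 0) (A : AddSubgroup K) : sm s (sm t A) = sm (s * t) A := by
  ext z
  rw [mem_sm hs, mem_sm ht, mem_sm (mul_ne_zero hs ht), mul_inv, ← mul_assoc, mul_comm t⁻¹]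

open Classical in
theorem card_nz [Fintype K] {A : AddSubgroup K} (hA : Nat.card A = 8) : (Finset.univ.filter (fun z : K => z ∈ A ∧ z ≠ 0)).card = 7 := by
  rw [card_pts', hA]

open Classical in
/-- if `t A = A`, `t ≠ 1`, `1 ∈ A`, then `A` consists of the `z` with `z ^ 8 = z` -/
theorem stab8 [Fintype K] {A : AddSubgroup K} (hA : Nat.card A = 8) (h1 : (1 : K) ∈ A) {t : K} (ht0 : t ≠ 0) (ht1 : t ≠ 1) (ht : sm t A = A) : ∀ a ∈ A, a ^ 8 = a := by
  have hm : ∀ z ∈ A, t * z ∈ A := by
    intro z hz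
    rw [← ht, mem_sm ht0, inv_mul_cancel_left₀ ht0]
    exact hz
  have h7 : t ^ 7 = 1 := by
    have h2 : ∏ z ∈ Finset.univ.filter (fun z : K => z ∈ A ∧ z ≠ 0), (t * z) = ∏ z ∈ Finset.univ.filter (fun z : K => z ∈ A ∧ z ≠ 0), z := by
      refine Finset.prod_bij (fun z _ => t * z) ?_ ?_ ?_ ?_
      · intro z hz
        rw [Finset.mem_filter] at hz ⊢
        exact ⟨Finset.mem_univ _, hm z hz.2.1, mul_ne_zero ht0 hz.2.2⟩
      · intro z _ w _ hzw
        exact mul_left_cancel₀ ht0 hzw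
      · intro z hz
        rw [Finset.mem_filter] at hz
        refine ⟨t⁻¹ * z, ?_, mul_inv_cancel_left₀ ht0 z⟩
        rw [Finset.mem_filter]
        refine ⟨Finset.mem_univ _, ?_, mul_ne_zero (inv_ne_zero ht0) hz.2.2⟩
        rw [← mem_sm ht0, ht]
        exact hz.2.1
      · intro z _
        rfl
    rw [Finset.prod_mul_distrib, Finset.prod_const, card_nz hA] at h2
    have h3 : ∏ z ∈ Finset.univ.filter (fun z : K => z ∈ A ∧ z ≠ 0), z ≠ 0 := by
      rw [Finset.prod_ne_zero_iff]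
      intro z hz
      rw [Finset.mem_filter] at hz
      exact hz.2.2
    exact mul_right_cancel₀ h3 (by rw [h2, one_mul])
  have hord : orderOf t = 7 := by
    have h2 : orderOf t ∣ 7 := orderOf_dvd_of_pow_eq_one h7
    rcases (Nat.dvd_prime (by norm_num : Nat.Prime 7)).1 h2 with h3 | h3
    · exact absurd (orderOf_eq_one_iff.1 h3) ht1
    · exact h3
  have hpow : ∀ k : ℕ, t ^ k ∈ A := by
    intro k
    induction k with
    | zero => rw [pow_zero]; exact h1
    | succ k ih => rw [pow_succ']; exact hm _ ih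
  have himg : (Finset.range 7).image (fun k => t ^ k) = Finset.univ.filter (fun z : K => z ∈ A ∧ z ≠ 0) := by
    refine Finset.eq_of_subset_of_card_le ?_ ?_
    · intro z hz
      rw [Finset.mem_image] at hz
      obtain ⟨k, -, rfl⟩ := hz
      rw [Finset.mem_filter]
      exact ⟨Finset.mem_univ _, hpow k, pow_ne_zero k ht0⟩
    · rw [card_nz hA, Finset.card_image_of_injOn, Finset.card_range]
      intro a ha b hb hab
      have ha' : a < orderOf t := by rw [hord]; exact Finset.mem_range.1 ha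
      have hb' : b < orderOf t := by rw [hord]; exact Finset.mem_range.1 hb
      exact pow_injOn_Iio_orderOf ha' hb' hab
  intro a ha
  by_cases ha0 : a = 0
  · rw [ha0]
    norm_num
  · have h2 : a ∈ Finset.univ.filter (fun z : K => z ∈ A ∧ z ≠ 0) := by
      rw [Finset.mem_filter]
      exact ⟨Finset.mem_univ _, ha, ha0⟩
    rw [← himg, Finset.mem_image] at h2
    obtain ⟨k, -, rfl⟩ := h2
    rw [← pow_mul, mul_comm, pow_mul]
    have h3 : t ^ 8 = t := by
      rw [show (8 : ℕ) = 7 + 1 from rfl, pow_succ, h7, one_mul]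
    rw [h3]

open Classical in
theorem card_roots8 [Fintype K] : (Finset.univ.filter (fun z : K => z ^ 8 = z)).card ≤ 8 := by
  have hne : (Polynomial.X ^ 8 - Polynomial.X : Polynomial K) ≠ 0 := FiniteField.X_pow_card_sub_X_ne_zero K (by norm_num)
  have hdeg : (Polynomial.X ^ 8 - Polynomial.X : Polynomial K).natDegree = 8 := FiniteField.X_pow_card_sub_X_natDegree_eq K (by norm_num)
  have h1 : Finset.univ.filter (fun z : K => z ^ 8 = z) ⊆ (Polynomial.X ^ 8 - Polynomial.X : Polynomial K).roots.toFinset := by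
    intro z hz
    rw [Finset.mem_filter] at hz
    rw [Multiset.mem_toFinset, Polynomial.mem_roots hne, Polynomial.IsRoot.def, Polynomial.eval_sub, Polynomial.eval_pow, Polynomial.eval_X, hz.2, sub_self]
  calc _ ≤ _ := Finset.card_le_card h1
    _ ≤ _ := Multiset.toFinset_card_le _
    _ ≤ _ := Polynomial.card_roots' _
    _ = 8 := hdeg

open Classical in
theorem count7 [Fintype K] (𝒯 : Set (AddSubgroup K)) (h8 : ∀ A ∈ 𝒯, Nat.card A = 8) (hinv : ∀ A ∈ 𝒯, ∀ t : K, t ≠ 0 → sm t A ∈ 𝒯) (S : Finset (AddSubgroup K))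
    (hS : ∀ A, A ∈ S ↔ A ∈ 𝒯 ∧ (1 : K) ∈ A) : S.card % 7 = 0 ∨ S.card % 7 = 1 := by
  let free : AddSubgroup K → Prop := fun A => ∀ t : K, t ≠ 0 → sm t A = A → t = 1
  have hsplit := Finset.card_filter_add_card_filter_not (s := S) free
  have h2 : (S.filter (fun A => ¬ free A)).card ≤ 1 := by
    rw [Finset.card_le_one]
    have key : ∀ A ∈ S.filter (fun A => ¬ free A), Finset.univ.filter (fun z : K => z ∈ A) = Finset.univ.filter (fun z : K => z ^ 8 = z) := by
      intro A hA
      rw [Finset.mem_filter, hS] at hA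
      obtain ⟨⟨hA, h1⟩, hnf⟩ := hA
      have hnf' : ¬ ∀ t : K, t ≠ 0 → sm t A = A → t = 1 := hnf
      push Not at hnf'
      obtain ⟨t, ht0, ht, ht1⟩ := hnf'
      refine Finset.eq_of_subset_of_card_le ?_ ?_
      · intro z hz
        rw [Finset.mem_filter] at hz ⊢
        exact ⟨hz.1, stab8 (h8 A hA) h1 ht0 ht1 ht z hz.2⟩
      · have h3 : (Finset.univ.filter (fun z : K => z ∈ A)).card = 8 := by
          rw [← h8 A hA, Nat.card_eq_fintype_card, Fintype.card_subtype]
        rw [h3]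
        exact card_roots8
    intro A hA A' hA'
    have h3 := (key A hA).trans (key A' hA').symm
    ext z
    have h4 : z ∈ Finset.univ.filter (fun z : K => z ∈ A) ↔ z ∈ Finset.univ.filter (fun z : K => z ∈ A') := by rw [h3]
    rw [Finset.mem_filter, Finset.mem_filter] at h4
    exact ⟨fun h => (h4.1 ⟨Finset.mem_univ _, h⟩).2, fun h => (h4.2 ⟨Finset.mem_univ _, h⟩).2⟩
  have h3 : 7 ∣ (S.filter free).card := by
    let rel : AddSubgroup K → AddSubgroup K → Prop := fun A A' => ∃ t : K, t ≠ 0 ∧ A' = sm t A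
    rw [Finset.card_eq_sum_card_image (fun A => (S.filter free).filter (fun A' => rel A A'))]
    refine Finset.dvd_sum fun c hc => ?_
    rw [Finset.mem_image] at hc
    obtain ⟨A₀, hA₀, rfl⟩ := hc
    have hA₀' := hA₀
    rw [Finset.mem_filter, hS] at hA₀'
    obtain ⟨⟨hT, h1⟩, hfree⟩ := hA₀'
    have hrefl : ∀ A, rel A A := fun A => ⟨1, one_ne_zero, (sm_one A).symm⟩
    have hsymm : ∀ A A', rel A A' → rel A' A := by
      rintro A A' ⟨t, ht, rfl⟩
      refine ⟨t⁻¹, inv_ne_zero ht, ?_⟩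
      rw [sm_sm (inv_ne_zero ht) ht, inv_mul_cancel₀ ht, sm_one]
    have htrans : ∀ A A' A'', rel A A' → rel A' A'' → rel A A'' := by
      rintro A A' A'' ⟨t, ht, rfl⟩ ⟨s, hs, rfl⟩
      exact ⟨s * t, mul_ne_zero hs ht, sm_sm hs ht A⟩
    have h4 : (S.filter free).filter (fun A => (S.filter free).filter (fun A' => rel A A') = (S.filter free).filter (fun A' => rel A₀ A')) =
        (Finset.univ.filter (fun z : K => z ∈ A₀ ∧ z ≠ 0)).image (fun y => sm y⁻¹ A₀) := by
      ext A
      rw [Finset.mem_filter, Finset.mem_image]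
      constructor
      · rintro ⟨hA, hEq⟩
        have h5 : A ∈ (S.filter free).filter (fun A' => rel A A') := by
          rw [Finset.mem_filter]
          exact ⟨hA, hrefl A⟩
        rw [hEq, Finset.mem_filter] at h5
        obtain ⟨t, ht, rfl⟩ := h5.2
        rw [Finset.mem_filter, hS, mem_sm ht, mul_one] at hA
        refine ⟨t⁻¹, ?_, by rw [inv_inv]⟩
        rw [Finset.mem_filter]
        exact ⟨Finset.mem_univ _, hA.1.2, inv_ne_zero ht⟩
      · rintro ⟨y, hy, rfl⟩
        rw [Finset.mem_filter] at hy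
        obtain ⟨-, hyA, hy0⟩ := hy
        have hy1 : y⁻¹ ≠ 0 := inv_ne_zero hy0
        have h5 : sm y⁻¹ A₀ ∈ S.filter free := by
          rw [Finset.mem_filter, hS]
          refine ⟨⟨hinv A₀ hT y⁻¹ hy1, ?_⟩, ?_⟩
          · rw [mem_sm hy1, inv_inv, mul_one]
            exact hyA
          · intro s hs0 hs
            refine hfree s hs0 ?_
            have h6 := congrArg (sm y) hs
            rw [sm_sm hs0 hy1, sm_sm hy0 (mul_ne_zero hs0 hy1), sm_sm hy0 hy1, mul_inv_cancel₀ hy0, sm_one, mul_comm s, ← mul_assoc, mul_inv_cancel₀ hy0, one_mul] at h6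
            exact h6
        refine ⟨h5, ?_⟩
        have h6 : rel A₀ (sm y⁻¹ A₀) := ⟨y⁻¹, hy1, rfl⟩
        refine Finset.filter_congr fun A' _ => ?_
        exact ⟨fun h => htrans _ _ _ h6 h, fun h => htrans _ _ _ (hsymm _ _ h6) h⟩
    rw [h4, Finset.card_image_of_injOn, card_nz (h8 A₀ hT)]
    intro y hy z hz hyz
    rw [Finset.coe_filter] at hy hz
    have hy0 : y ≠ 0 := hy.2.2
    have hz0 : z ≠ 0 := hz.2.2
    have h5 : sm y⁻¹ A₀ = sm z⁻¹ A₀ := hyz
    have h6 := congrArg (sm z) h5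
    rw [sm_sm hz0 (inv_ne_zero hy0), sm_sm hz0 (inv_ne_zero hz0), mul_inv_cancel₀ hz0, sm_one] at h6
    have h7 := hfree (z * y⁻¹) (mul_ne_zero hz0 (inv_ne_zero hy0)) h6
    exact ((mul_inv_eq_one₀ hy0).1 h7).symm
  omega

end

end Pool.Agent.helper54.QU
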