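import Pool.Agent.helper54.QU.Prod2

/-!
# The main theorem
-/

set_option autoImplicit false

namespace Pool.Agent.helper54.QU

section
variable {E : Type} [CommRing E] {ι : Type} {K : ι → Type} [∀ i, Field (K i)]

theorem e_inj (e : E ≃+* ∀ i, K i) : Function.Injective (e : E →+ ∀ i, K i) := e.injective

theorem e_surj (e : E ≃+* ∀ i, K i) : Function.Surjective (e : E →+ ∀ i, K i) := e.surjective

/-- transport of a system -/
theorem sys_transport (e : E ≃+* ∀ i, K i) {𝓑 : Set (AddSubgroup E)} (h : Sys E 𝓑) : Sys (∀ i, K i) {B | B.comap (e : E →+ ∀ i, K i) ∈ 𝓑} := by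
  have hz : ∀ z, z ≠ 0 → e.symm z ≠ 0 := fun z hz h0 => hz (by rw [← e.apply_symm_apply z, h0, map_zero])
  refine ⟨?_, ?_, ?_, ?_⟩
  · intro z
    rw [← e.apply_symm_apply z, ← map_add, h.two, map_zero]
  · intro B hB
    have h1 := AddSubgroup.card_map_of_injective (K := B.comap (e : E →+ ∀ i, K i)) (e_inj e)
    rw [AddSubgroup.map_comap_eq_self_of_surjective (e_surj e)] at h1
    rw [h1]
    exact h.h8 _ hB
  · intro x y hx hy hxy
    obtain ⟨B, hB, h1, h2⟩ := h.ex (e.symm x) (e.symm y) (hz x hx) (hz y hy) (fun h0 => hxy (e.symm.injective h0))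
    refine ⟨B.map (e : E →+ ∀ i, K i), ?_, ⟨_, h1, e.apply_symm_apply x⟩, ⟨_, h2, e.apply_symm_apply y⟩⟩
    show (B.map (e : E →+ ∀ i, K i)).comap (e : E →+ ∀ i, K i) ∈ 𝓑
    rw [AddSubgroup.comap_map_eq_self_of_injective (e_inj e)]
    exact hB
  · intro x y B B' hB hB' hx hy hxy h1 h2 h3 h4
    have hm : ∀ (C : AddSubgroup (∀ i, K i)) (z : ∀ i, K i), z ∈ C → e.symm z ∈ C.comap (e : E →+ ∀ i, K i) := by
      intro C z hz
      rw [AddSubgroup.mem_comap]
      show e (e.symm z) ∈ C
      rw [e.apply_symm_apply]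
      exact hz
    exact AddSubgroup.comap_injective (e_surj e) (h.uq (e.symm x) (e.symm y) _ _ hB hB' (hz x hx) (hz y hy) (fun h0 => hxy (e.symm.injective h0)) (hm B x h1) (hm B y h2) (hm B' x h3) (hm B' y h4))

/-- transport of the invariance -/
theorem inv_transport (e : E ≃+* ∀ i, K i) {𝓑 : Set (AddSubgroup E)} (hi : Inv 𝓑) : Inv {B | B.comap (e : E →+ ∀ i, K i) ∈ 𝓑} := by
  intro u v huv B hB
  obtain ⟨B', hB', h1⟩ := hi (e.symm u) (e.symm v) (by rw [← map_mul, huv, map_one]) _ hB
  refine ⟨B'.map (e : E →+ ∀ i, K i), ?_, ?_⟩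
  · show (B'.map (e : E →+ ∀ i, K i)).comap (e : E →+ ∀ i, K i) ∈ 𝓑
    rw [AddSubgroup.comap_map_eq_self_of_injective (e_inj e)]
    exact hB'
  · intro x hx
    refine ⟨e.symm u * e.symm x, h1 (e.symm x) ?_, ?_⟩
    · rw [AddSubgroup.mem_comap]
      show e (e.symm x) ∈ B
      rw [e.apply_symm_apply]
      exact hx
    · show e (e.symm u * e.symm x) = u * x
      rw [map_mul, e.apply_symm_apply, e.apply_symm_apply]

open Classical in
theorem reduced_case [Finite ι] [∀ i, Finite (K i)] (e : E ≃+* ∀ i, K i) {𝓑 : Set (AddSubgroup E)} (h : Sys E 𝓑) (hi : Inv 𝓑) {n : ℕ} (hE : Nat.card E = 2 ^ n) :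
    IsField E ∨ (∀ x : E, x * x = x) ∨ (n % 6 = 3 ∧ ∃ (F : Type) (_ : Field F), Nat.card F = 2 ^ (n - 1) ∧ Nonempty (E ≃+* F × ZMod 2)) := by
  rcases prod_main (sys_transport e h) (inv_transport e hi) with h1 | ⟨i, h1⟩ | ⟨i, j, hij, h1, h2, l, hl6, hl⟩
  · right; left
    intro x
    apply e.injective
    rw [map_mul]
    funext k
    rw [Pi.mul_apply]
    have hF : Fintype (K k) := Fintype.ofFinite _
    have h2 := FiniteField.pow_card (e x k)
    have h3 := h1 k
    rw [Nat.card_eq_fintype_card] at h3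
    rw [h3, pow_two] at h2
    exact h2
  · left
    refine ⟨⟨0, 1, ?_⟩, mul_comm, ?_⟩
    · intro h0
      have h2 := congrFun (congrArg e h0) i
      rw [map_zero, map_one] at h2
      exact zero_ne_one h2
    · intro a ha
      refine ⟨e.symm (fun j => (e a j)⁻¹), ?_⟩
      apply e.injective
      rw [map_mul, e.apply_symm_apply, map_one]
      funext j
      rw [Pi.mul_apply, Pi.one_apply]
      refine mul_inv_cancel₀ ?_
      intro h0
      apply ha
      apply e.injective
      rw [map_zero]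
      funext k
      rw [Pi.zero_apply, h1 k, ← h1 j]
      exact h0
  · right; right
    have hF : Fintype (K j) := Fintype.ofFinite _
    have h3 : Fintype.card (K j) = 2 := by rw [← Nat.card_eq_fintype_card, h2]
    let f : E →+* K i × K j := ((Pi.evalRingHom K i).comp (e : E →+* ∀ i, K i)).prod ((Pi.evalRingHom K j).comp (e : E →+* ∀ i, K i))
    have hf : Function.Bijective f := by
      constructor
      · intro a b hab
        apply e.injective
        funext k
        rcases h1 k with h4 | h4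
        · rw [h4]
          exact congrArg Prod.fst hab
        · rw [h4]
          exact congrArg Prod.snd hab
      · rintro ⟨a, b⟩
        refine ⟨e.symm (Pi.single i a + Pi.single j b), ?_⟩
        refine Prod.ext ?_ ?_
        · show e (e.symm (Pi.single i a + Pi.single j b)) i = a
          rw [e.apply_symm_apply, Pi.add_apply, Pi.single_eq_same, Pi.single_eq_of_ne hij, add_zero]
        · show e (e.symm (Pi.single i a + Pi.single j b)) j = b
          rw [e.apply_symm_apply, Pi.add_apply, Pi.single_eq_same, Pi.single_eq_of_ne hij.symm, zero_add]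
    have h5 : Nat.card E = 2 ^ (l + 1) := by
      rw [Nat.card_congr (Equiv.ofBijective f hf), Nat.card_prod, h2, hl, pow_succ]
    have h6 : n = l + 1 := by
      rw [hE] at h5
      exact Nat.pow_right_injective le_rfl h5
    refine ⟨by omega, K i, inferInstance, ?_, ⟨(RingEquiv.ofBijective f hf).trans (RingEquiv.prodCongr (RingEquiv.refl (K i)) (ZMod.ringEquivOfPrime (K j) Nat.prime_two h3).symm)⟩⟩
    rw [hl, h6, Nat.add_sub_cancel]

end

/-- **The theorem.** -/
theorem units_main (n : ℕ) (hn : 3 < n) (E : Type) [CommRing E] (h2 : (2 : E) = 0) (hE : Nat.card E = 2 ^ n) (𝓑 : Set (AddSubgroup E)) (h𝓑 : IsSystem E 𝓑)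
    (hu : ∀ u : Eˣ, ∀ B ∈ 𝓑, B.map (AddMonoidHom.mulLeft (u : E)) ∈ 𝓑) :
    IsField E ∨ (∀ x : E, x * x = x) ∨ (n % 6 = 3 ∧ ∃ (K : Type) (_ : Field K), Nat.card K = 2 ^ (n - 1) ∧ Nonempty (E ≃+* K × ZMod 2)) := by
  have hfin : Finite E := Nat.finite_of_card_ne_zero (by rw [hE]; positivity)
  have hF : Fintype E := Fintype.ofFinite _
  have h := h𝓑.sys (fun z => by rw [← two_mul, h2, zero_mul])
  have hi : Inv 𝓑 := by
    intro u v huv B hB
    refine ⟨_, hu ⟨u, v, huv, by rw [mul_comm, huv]⟩ B hB, ?_⟩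
    intro x hx
    exact ⟨x, hx, rfl⟩
  by_cases hr : ∀ z : E, IsNilpotent z → z = 0
  · have hred : IsReduced E := ⟨hr⟩
    let inst : ∀ I : MaximalSpectrum E, Field (E ⧸ I.asIdeal) := fun I => @Ideal.Quotient.field _ _ I.asIdeal I.isMaximal
    exact reduced_case (K := fun I : MaximalSpectrum E => E ⧸ I.asIdeal) (IsArtinianRing.equivPi E).toRingEquiv h hi hE
  · push Not at hr
    obtain ⟨z, hz, hz0⟩ := hr
    exact (nonred h hi hn hE z hz0 hz).elim

end Pool.Agent.helper54.QU
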