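import Pool.Agent.helper54.QU.Basic

/-!
# Part A: the units of a nonreduced ring cannot act
-/

set_option autoImplicit false

namespace Pool.Agent.helper54.QU

/-- `𝓑` is invariant under the multiplications by the units -/
def Inv {E : Type} [CommRing E] (𝓑 : Set (AddSubgroup E)) : Prop := ∀ u v : E, u * v = 1 → ∀ B ∈ 𝓑, ∃ B' ∈ 𝓑, ∀ x ∈ B, u * x ∈ B'

section
variable {E : Type} [CommRing E] {𝓑 : Set (AddSubgroup E)}

theorem inv_fix (h : Sys E 𝓑) (hi : Inv 𝓑) {u v : E} (huv : u * v = 1) {B : AddSubgroup E} (hB : B ∈ 𝓑) {x y : E} (hx : x ≠ 0) (hy : y ≠ 0) (hxy : x ≠ y)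
    (h1 : x ∈ B) (h2 : y ∈ B) (h3 : u * x ∈ B) (h4 : u * y ∈ B) : ∀ z ∈ B, u * z ∈ B := by
  obtain ⟨B', hB', hz⟩ := hi u v huv B hB
  have hc : ∀ a b : E, u * a = u * b → a = b := by
    intro a b hab
    calc a = (u * v) * a := by rw [huv, one_mul]
      _ = v * (u * a) := by ring
      _ = v * (u * b) := by rw [hab]
      _ = (u * v) * b := by ring
      _ = b := by rw [huv, one_mul]
  have h5 : B = B' := h.uq (u * x) (u * y) B B' hB hB' (fun h0 => hx (hc _ _ (by rw [h0, mul_zero]))) (fun h0 => hy (hc _ _ (by rw [h0, mul_zero])))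
    (fun h0 => hxy (hc _ _ h0)) h3 h4 (hz x h1) (hz y h2)
  rw [← h5] at hz
  exact hz

open Classical in
theorem exists_max [Fintype E] (u₀ : E) (h0 : u₀ ≠ 0) (hn : IsNilpotent u₀) : ∃ u : E, u ≠ 0 ∧ IsNilpotent u ∧
    ∀ w : E, w ≠ 0 → IsNilpotent w → (∀ z, u * z = 0 → w * z = 0) → ∀ z, w * z = 0 → u * z = 0 := by
  obtain ⟨u, hu, hmax⟩ := Finset.exists_max_image (Finset.univ.filter (fun u : E => u ≠ 0 ∧ IsNilpotent u)) (fun u => (Finset.univ.filter (fun z : E => u * z = 0)).card)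
    ⟨u₀, by rw [Finset.mem_filter]; exact ⟨Finset.mem_univ _, h0, hn⟩⟩
  rw [Finset.mem_filter] at hu
  refine ⟨u, hu.2.1, hu.2.2, ?_⟩
  intro w hw hwn hle z hz
  have h1 := hmax w (by rw [Finset.mem_filter]; exact ⟨Finset.mem_univ _, hw, hwn⟩)
  have h2 : Finset.univ.filter (fun z : E => u * z = 0) ⊆ Finset.univ.filter (fun z : E => w * z = 0) := by
    intro z hz
    rw [Finset.mem_filter] at hz ⊢
    exact ⟨hz.1, hle z hz.2⟩
  have h3 := Finset.eq_of_subset_of_card_le h2 h1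
  have h4 : z ∈ Finset.univ.filter (fun z : E => w * z = 0) := by
    rw [Finset.mem_filter]
    exact ⟨Finset.mem_univ _, hz⟩
  rw [← h3, Finset.mem_filter] at h4
  exact h4.2

/-- the data of the proof: `u * u = 0`, and for `v` outside the annihilator `M` of `u` there is `s` with `s * v = u`, `s * s = s * u = 0` and the annihilator `M` -/
theorem exists_u [Fintype E] (u₀ : E) (h0 : u₀ ≠ 0) (hn : IsNilpotent u₀) : ∃ u : E, u ≠ 0 ∧ u * u = 0 ∧
    ∀ v : E, u * v ≠ 0 → ∃ s : E, s * v = u ∧ s * s = 0 ∧ s * u = 0 ∧ (∀ z, s * z = 0 ↔ u * z = 0) ∧ ∃ t, s = t * u := by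
  obtain ⟨u, hu, hun, hmax⟩ := exists_max u₀ h0 hn
  have hnil : ∀ t : E, IsNilpotent (t * u) := fun t => (Commute.all t u).isNilpotent_mul_left hun
  have hinj : ∀ v : E, u * v ≠ 0 → ∀ t : E, v * (t * u) = 0 → t * u = 0 := by
    intro v hv t ht
    by_contra h1
    refine hv (hmax (t * u) h1 (hnil t) (fun z hz => by rw [mul_assoc, hz, mul_zero]) v ?_)
    rw [mul_comm, ht]
  have huu : u * u = 0 := by
    by_contra h1
    have h2 : ∀ k : ℕ, u ^ (k + 1) ≠ 0 := by
      intro k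
      induction k with
      | zero => rwa [zero_add, pow_one]
      | succ k ih =>
        intro h3
        refine ih ?_
        rw [pow_succ]
        refine hinj u h1 (u ^ k) ?_
        rw [← pow_succ, ← pow_succ']
        exact h3
    obtain ⟨k, hk⟩ := hun
    cases k with
    | zero =>
      rw [pow_zero] at hk
      exact hu (by rw [← mul_one u, hk, mul_zero])
    | succ k => exact h2 k hk
  refine ⟨u, hu, huu, ?_⟩
  intro v hv
  have hsurj : Function.Surjective (fun x : {x : E // ∃ t, x = t * u} => (⟨v * x.1, by obtain ⟨t, ht⟩ := x.2; exact ⟨v * t, by rw [ht, mul_assoc]⟩⟩ : {x : E // ∃ t, x = t * u})) := by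
    refine Finite.injective_iff_surjective.1 ?_
    rintro ⟨x, t, rfl⟩ ⟨y, t', rfl⟩ hxy
    have h1 : v * (t * u) = v * (t' * u) := congrArg Subtype.val hxy
    have h2 : (t - t') * u = 0 := hinj v hv (t - t') (by rw [sub_mul, mul_sub, h1, sub_self])
    refine Subtype.ext ?_
    rw [sub_mul, sub_eq_zero] at h2
    exact h2
  obtain ⟨⟨s, t, hs⟩, h1⟩ := hsurj ⟨u, 1, (one_mul u).symm⟩
  have h2 : v * s = u := congrArg Subtype.val h1
  have hsu : s * u = 0 := by rw [hs, mul_assoc, huu, mul_zero]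
  have hs0 : s ≠ 0 := by
    intro h3
    rw [h3, mul_zero] at h2
    exact hu h2.symm
  have hle : ∀ z, u * z = 0 → s * z = 0 := fun z hz => by rw [hs, mul_assoc, hz, mul_zero]
  refine ⟨s, by rw [mul_comm, h2], ?_, hsu, fun z => ⟨fun hz => ?_, hle z⟩, t, hs⟩
  · nth_rewrite 2 [hs]
    rw [mul_comm t, ← mul_assoc, hsu, zero_mul]
  · refine hmax s hs0 ?_ hle z hz
    rw [hs]
    exact hnil t

open Classical in
theorem exists_w [Fintype E] (h : Sys E 𝓑) (hi : Inv 𝓑) {u : E} (hu : u ≠ 0) (huu : u * u = 0)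
    (hs : ∀ v : E, u * v ≠ 0 → ∃ s : E, s * v = u ∧ s * s = 0 ∧ s * u = 0 ∧ (∀ z, s * z = 0 ↔ u * z = 0) ∧ ∃ t, s = t * u)
    {B : AddSubgroup E} (hB : B ∈ 𝓑) (huB : u ∈ B) {v : E} (hvB : v ∈ B) (hv : u * v ≠ 0) : ∃ w ∈ B, w ≠ 0 ∧ w ≠ u ∧ u * w = 0 := by
  obtain ⟨s, hsv, hss, hsu, hann, t, ht⟩ := hs v hv
  have hv0 : v ≠ 0 := fun h0 => hv (by rw [h0, mul_zero])
  have huv : u ≠ v := fun h0 => hv (by rw [← h0, huu])
  have h1 : (1 + s) * (1 + s) = 1 := by
    have h2 : (1 + s) * (1 + s) = 1 + (s + s) + s * s := by ring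
    rw [h2, hss, h.two, add_zero, add_zero]
  have h2 : ∀ z ∈ B, (1 + s) * z ∈ B := by
    refine inv_fix h hi h1 hB hu hv0 huv huB hvB ?_ ?_
    · rw [add_mul, one_mul, hsu, add_zero]
      exact huB
    · rw [add_mul, one_mul, hsv]
      exact B.add_mem hvB huB
  have h3 : ∀ z ∈ B, s * z ∈ B := by
    intro z hz
    have h4 := B.sub_mem (h2 z hz) hz
    have h5 : (1 + s) * z - z = s * z := by ring
    rwa [h5] at h4
  obtain ⟨b, hb, hbL⟩ := exists_notMem (card_lin h.two hu hv0 huv) (h.h8 B hB)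
  rw [mem_lin, not_or, not_or, not_or] at hbL
  obtain ⟨hb0, hbu, hbv, hbuv⟩ := hbL
  by_cases h6 : s * b = 0
  · exact ⟨b, hb, hb0, hbu, (hann b).1 h6⟩
  · by_cases h7 : s * b = u
    · refine ⟨b + v, B.add_mem hb hvB, ?_, ?_, ?_⟩
      · intro h8
        exact hbv ((add_eq_zero' h.two).1 h8)
      · intro h8
        apply hbuv
        rw [← h8, add_assoc, h.two, add_zero]
      · rw [← hann, mul_add, h7, hsv, h.two]
    · refine ⟨s * b, h3 b hb, h6, h7, ?_⟩
      rw [ht, mul_assoc, ← mul_assoc, mul_comm u t, mul_assoc, ← mul_assoc u u, huu, zero_mul, mul_zero]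

open Classical in
theorem nonred [Fintype E] (h : Sys E 𝓑) (hi : Inv 𝓑) {n : ℕ} (hn : 3 < n) (hE : Nat.card E = 2 ^ n) (u₀ : E) (h0 : u₀ ≠ 0) (hnil : IsNilpotent u₀) : False := by
  obtain ⟨u, hu, huu, hs⟩ := exists_u u₀ h0 hnil
  -- the annihilator `M` of `u`
  obtain ⟨M, hM⟩ : ∃ M : AddSubgroup E, ∀ z, z ∈ M ↔ u * z = 0 := ⟨(AddMonoidHom.mulLeft u).ker, fun z => AddMonoidHom.mem_ker⟩
  have h1M : (1 : E) ∉ M := by
    rw [hM, mul_one]
    exact hu
  have huM : u ∈ M := (hM u).2 huu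
  -- count
  have hle : (Finset.univ.filter (fun z : E => z ∉ M)).card ≤ 2 * (Finset.univ.filter (fun z : E => z ∈ M ∧ z ≠ 0 ∧ z ≠ u)).card := by
    rw [lsum h hu (Finset.univ.filter (fun z : E => z ∉ M)) (by
      intro a ha
      rw [Finset.mem_filter] at ha
      refine ⟨fun h1 => ha.2 (h1 ▸ M.zero_mem), fun h1 => ha.2 (h1 ▸ huM)⟩), lsum h hu (Finset.univ.filter (fun z : E => z ∈ M ∧ z ≠ 0 ∧ z ≠ u)) (by
      intro a ha
      rw [Finset.mem_filter] at ha
      exact ha.2.2), Finset.mul_sum]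
    refine Finset.sum_le_sum fun B hB => ?_
    rw [mem_star] at hB
    by_cases hBM : B ≤ M
    · have h2 : (Finset.univ.filter (fun z : E => z ∉ M)).filter (fun z => z ∈ B) = ∅ := by
        rw [Finset.filter_eq_empty_iff]
        intro z hz hzB
        rw [Finset.mem_filter] at hz
        exact hz.2 (hBM hzB)
      rw [h2, Finset.card_empty]
      exact Nat.zero_le _
    · obtain ⟨v, hvB, hvM⟩ := SetLike.not_le_iff_exists.1 hBM
      rw [hM] at hvM
      obtain ⟨w, hwB, hw0, hwu, huw⟩ := exists_w h hi hu huu hs hB.1 hB.2 hvB hvM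
      -- the three sets
      have h3 : (Finset.univ.filter (fun z : E => z ∈ B)).card = 8 := by
        rw [← h.h8 B hB.1, Nat.card_eq_fintype_card, Fintype.card_subtype]
      have h4 : ((Finset.univ.filter (fun z : E => z ∉ M)).filter (fun z => z ∈ B)).card + (Finset.univ.filter (fun z : E => z ∈ B ∧ z ∈ M)).card = 8 := by
        rw [← h3, ← Finset.card_union_of_disjoint]
        · refine congrArg Finset.card ?_
          ext z
          simp only [Finset.mem_union, Finset.mem_filter, Finset.mem_univ, true_and]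
          tauto
        · rw [Finset.disjoint_left]
          intro z hz hz'
          simp only [Finset.mem_filter, Finset.mem_univ, true_and] at hz hz'
          exact hz.1 hz'.2
      have h5 : ((Finset.univ.filter (fun z : E => z ∈ M ∧ z ≠ 0 ∧ z ≠ u)).filter (fun z => z ∈ B)) = ((Finset.univ.filter (fun z : E => z ∈ B ∧ z ∈ M)).erase 0).erase u := by
        ext z
        simp only [Finset.mem_erase, Finset.mem_filter, Finset.mem_univ, true_and]
        tauto
      have h6 : ((Finset.univ.filter (fun z : E => z ∈ M ∧ z ≠ 0 ∧ z ≠ u)).filter (fun z => z ∈ B)).card = (Finset.univ.filter (fun z : E => z ∈ B ∧ z ∈ M)).card - 2 := by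
        rw [h5, Finset.card_erase_of_mem, Finset.card_erase_of_mem]
        · omega
        · simp [B.zero_mem, M.zero_mem]
        · simp [hB.2, huM, hu]
      have h7 : 4 ≤ (Finset.univ.filter (fun z : E => z ∈ B ∧ z ∈ M)).card := by
        have h8 : (Finset.univ.filter (fun z : E => z ∈ lin h.two u w)).card = 4 := by
          rw [← card_lin h.two hu hw0 hwu.symm, Nat.card_eq_fintype_card, Fintype.card_subtype]
        rw [← h8]
        refine Finset.card_le_card fun z hz => ?_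
        rw [Finset.mem_filter] at hz ⊢
        exact ⟨hz.1, (lin_le h.two).2 ⟨hB.2, hwB⟩ hz.2, (lin_le h.two).2 ⟨huM, (hM w).2 huw⟩ hz.2⟩
      rw [h6]
      omega
  have hc1 : (Finset.univ.filter (fun z : E => z ∉ M)).card = 2 ^ n - Nat.card M := by
    have h2 : Finset.univ.filter (fun z : E => z ∉ M) = (Finset.univ.filter (fun z : E => z ∈ M))ᶜ := by
      ext z
      simp
    rw [h2, Finset.card_compl, ← Nat.card_eq_fintype_card, hE, Nat.card_eq_fintype_card, Fintype.card_subtype]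
  rw [hc1, card_pts2 M hu huM] at hle
  have hpos : 0 < Nat.card M := Nat.card_pos
  have hdvd := M.card_mul_index
  rw [hE] at hdvd
  have hidx1 : M.index ≠ 1 := by
    rw [Ne, AddSubgroup.index_eq_one]
    intro h2
    exact h1M (h2 ▸ AddSubgroup.mem_top _)
  have hidx0 : M.index ≠ 0 := by
    intro h2
    rw [h2, mul_zero] at hdvd
    exact pow_ne_zero n two_ne_zero hdvd.symm
  have hidx : M.index = 2 := by
    by_contra h2
    have h3 : 3 ≤ M.index := by omega
    have h4 : Nat.card M * 3 ≤ Nat.card M * M.index := Nat.mul_le_mul_left _ h3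
    omega
  have hMc : 8 ≤ Nat.card M := by
    have h2 : 2 ^ 4 ≤ 2 ^ n := Nat.pow_le_pow_right (by norm_num) hn
    rw [hidx] at hdvd
    omega
  -- index 2
  have huv : ∀ v, u * v ≠ 0 → u * v = u := by
    intro v hv
    have h2 := (AddSubgroup.add_mem_iff_of_index_two hidx (a := v) (b := 1)).2 ⟨fun h => absurd ((hM v).1 h) hv, fun h => absurd h h1M⟩
    rw [hM, mul_add, mul_one] at h2
    exact (add_eq_zero' h.two).1 h2
  have hin : ∀ a b : E, a ∉ M → b ∉ M → a + b ∈ M := fun a b ha hb =>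
    (AddSubgroup.add_mem_iff_of_index_two hidx).2 ⟨fun h => absurd h ha, fun h => absurd h hb⟩
  have hall : ∀ B ∈ 𝓑, ∀ v ∈ B, u * v ≠ 0 → u ∈ B := by
    intro B hB v hvB hv
    have hvM : v ∉ M := fun h => hv ((hM v).1 h)
    have hv0 : v ≠ 0 := fun h0 => hvM (h0 ▸ M.zero_mem)
    -- p
    have hp : ∃ p ∈ B, p ∈ M ∧ p ≠ 0 := by
      by_contra hcon
      push Not at hcon
      have h2 : B ≤ (AddSubgroup.zmultiples v) := by
        intro b hb
        by_cases hbM : b ∈ M
        · rw [hcon b hb hbM]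
          exact AddSubgroup.zero_mem _
        · have h3 := hcon (b + v) (B.add_mem hb hvB) (hin b v hbM hvM)
          rw [add_eq_zero' h.two] at h3
          rw [h3]
          exact AddSubgroup.mem_zmultiples v
      have h3 : Nat.card B ∣ Nat.card (AddSubgroup.zmultiples v) := AddSubgroup.card_dvd_of_le h2
      rw [h.h8 B hB, Nat.card_zmultiples] at h3
      have h4 : addOrderOf v ∣ 2 := addOrderOf_dvd_of_nsmul_eq_zero (by rw [two_nsmul, h.two])
      have h5 := Nat.le_of_dvd (by norm_num) (h3.trans h4)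
      omega
    obtain ⟨p, hpB, hpM, hp0⟩ := hp
    have hpv : p ≠ v := fun h0 => hvM (h0 ▸ hpM)
    obtain ⟨b, hb, hbL⟩ := exists_notMem (card_lin h.two hp0 hv0 hpv) (h.h8 B hB)
    rw [mem_lin, not_or, not_or, not_or] at hbL
    obtain ⟨hb0, hbp, hbv, hbpv⟩ := hbL
    have hq : ∃ q ∈ B, q ∈ M ∧ q ≠ 0 ∧ p ≠ q := by
      by_cases hbM : b ∈ M
      · exact ⟨b, hb, hbM, hb0, fun h => hbp h.symm⟩
      · refine ⟨b + v, B.add_mem hb hvB, hin b v hbM hvM, ?_, ?_⟩
        · intro h2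
          exact hbv ((add_eq_zero' h.two).1 h2)
        · intro h2
          apply hbpv
          rw [h2, add_assoc, h.two, add_zero]
    obtain ⟨q, hqB, hqM, hq0, hpq⟩ := hq
    have h1 : (1 + u) * (1 + u) = 1 := by
      have h2 : (1 + u) * (1 + u) = 1 + (u + u) + u * u := by ring
      rw [h2, huu, h.two, add_zero, add_zero]
    have h2 := inv_fix h hi h1 hB hp0 hq0 hpq hpB hqB (by rw [add_mul, one_mul, (hM p).1 hpM, add_zero]; exact hpB) (by rw [add_mul, one_mul, (hM q).1 hqM, add_zero]; exact hqB) v hvB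
    have h3 := B.sub_mem h2 hvB
    have h4 : (1 + u) * v - v = u := by
      rw [add_mul, one_mul, huv v hv]
      ring
    rwa [h4] at h3
  -- two points of M
  have h1u : (1 : E) ≠ u := fun h0 => h1M (h0 ▸ huM)
  have h10 : (1 : E) ≠ 0 := fun h0 => h1M (h0 ▸ M.zero_mem)
  have hu1 : u * 1 ≠ 0 := by rwa [mul_one]
  have hin2 : ∀ w, w ∈ M → w ≠ 0 → w ∈ blk 𝓑 1 u := by
    intro w hwM hw0
    have hw1 : (1 : E) ≠ w := fun h0 => h1M (h0 ▸ hwM)
    obtain ⟨h2, h3, h4⟩ := blk_spec h h10 hw0 hw1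
    have h5 := hall _ h2 1 h3 hu1
    rw [blk_eq h h10 hu h1u h2 h3 h5]
    exact h4
  obtain ⟨h2, h3, h4⟩ := blk_spec h h10 hu h1u
  have h5 : M ≤ blk 𝓑 1 u := by
    intro w hw
    by_cases hw0 : w = 0
    · rw [hw0]
      exact AddSubgroup.zero_mem _
    · exact hin2 w hw hw0
  have h6 : Nat.card M ∣ Nat.card (blk 𝓑 1 u) := AddSubgroup.card_dvd_of_le h5
  rw [h.h8 _ h2] at h6
  have h7 : Nat.card M = 8 := le_antisymm (Nat.le_of_dvd (by norm_num) h6) hMc
  have h8 : M = blk 𝓑 1 u := by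
    refine SetLike.coe_injective (Set.eq_of_subset_of_ncard_le h5 ?_)
    show Nat.card (blk 𝓑 1 u) ≤ Nat.card M
    rw [h7, h.h8 _ h2]
  rw [← h8] at h3
  exact h1M h3

end

end Pool.Agent.helper54.QU
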