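import Pool.Agent.helper54.QU.Field

/-!
# Part B: products of fields
-/

set_option autoImplicit false

namespace Pool.Agent.helper54.QU

section
variable {ι : Type} {K : ι → Type} [∀ i, Field (K i)]

/-- the vectors whose coordinates are zero outside `J`, if the field has more than two elements -/
def W (K : ι → Type) [∀ i, Field (K i)] (J : Set ι) : AddSubgroup (∀ i, K i) where
  carrier := {v | ∀ i, i ∉ J → Nat.card (K i) ≠ 2 → v i = 0}
  zero_mem' := fun _ _ _ => rfl
  add_mem' := by
    intro a b ha hb i hi hc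
    rw [Pi.add_apply, ha i hi hc, hb i hi hc, add_zero]
  neg_mem' := by
    intro a ha i hi hc
    rw [Pi.neg_apply, ha i hi hc, neg_zero]

theorem mem_W (J : Set ι) (v : ∀ i, K i) : v ∈ W K J ↔ ∀ i, i ∉ J → Nat.card (K i) ≠ 2 → v i = 0 := Iff.rfl

theorem two_K {𝓑 : Set (AddSubgroup (∀ i, K i))} (h : Sys (∀ i, K i) 𝓑) (i : ι) (c : K i) : c + c = 0 := by
  classical
  have h1 := congrFun (h.two (Pi.single i c)) i
  rwa [Pi.add_apply, Pi.single_eq_same] at h1

theorem exists_a [∀ i, Finite (K i)] {i : ι} (hc : Nat.card (K i) ≠ 2) : ∃ a : K i, a ≠ 0 ∧ a ≠ 1 := by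
  classical
  by_contra h
  push Not at h
  have hF : Fintype (K i) := Fintype.ofFinite _
  apply hc
  rw [Nat.card_eq_fintype_card]
  have h1 : (Finset.univ : Finset (K i)) = {0, 1} := by
    ext z
    simp only [Finset.mem_univ, Finset.mem_insert, Finset.mem_singleton, true_iff]
    by_cases h0 : z = 0
    · exact Or.inl h0
    · exact Or.inr (h z h0)
  rw [← Finset.card_univ, h1, Finset.card_pair zero_ne_one]

open Classical in
/-- the unit with one coordinate `a` -/
noncomputable def un (i : ι) (a : K i) : ∀ i, K i := Function.update 1 i a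

open Classical in
theorem un_same (i : ι) (a : K i) (v : ∀ i, K i) : (un i a * v) i = a * v i := by
  rw [Pi.mul_apply, un, Function.update_self]

open Classical in
theorem un_ne {i j : ι} (hij : j ≠ i) (a : K i) (v : ∀ i, K i) : (un i a * v) j = v j := by
  rw [Pi.mul_apply, un, Function.update_of_ne hij, Pi.one_apply, one_mul]

open Classical in
theorem un_mul {i : ι} {a : K i} (ha : a ≠ 0) : un i a * un i a⁻¹ = 1 := by
  funext j
  by_cases hj : j = i
  · subst hj
    rw [un_same, un, Function.update_self, mul_inv_cancel₀ ha]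
    rfl
  · rw [un_ne hj, un, Function.update_of_ne hj]

theorem un_fix {i : ι} (a : K i) {v : ∀ i, K i} (hv : v i = 0) : un i a * v = v := by
  funext j
  by_cases hj : j = i
  · subst hj
    rw [un_same, hv, mul_zero]
  · rw [un_ne hj]

theorem closedW [Finite ι] [∀ i, Finite (K i)] {𝓑 : Set (AddSubgroup (∀ i, K i))} (h : Sys (∀ i, K i) 𝓑) (hi : Inv 𝓑) (J : Set ι) : Closed 𝓑 (W K J) := by
  intro B hB x hxB y hyB hx hy hxy hxW hyW z hzB i hiJ hci
  by_contra hz
  obtain ⟨a, ha0, ha1⟩ := exists_a hci
  have hxi : x i = 0 := hxW i hiJ hci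
  have hyi : y i = 0 := hyW i hiJ hci
  have h1 := inv_fix h hi (un_mul ha0) hB hx hy hxy hxB hyB (by rw [un_fix a hxi]; exact hxB) (by rw [un_fix a hyi]; exact hyB) z hzB
  have hL : ∀ w ∈ lin h.two x y, w i = 0 := by
    rintro w (rfl | rfl | rfl | rfl)
    · rfl
    · exact hxi
    · exact hyi
    · rw [Pi.add_apply, hxi, hyi, add_zero]
  have h2 := add_mem_of_card (card_lin h.two hx hy hxy) (h.h8 B hB) ((lin_le h.two).2 ⟨hxB, hyB⟩) hzB h1 (fun h3 => hz (hL z h3)) (fun h3 => by
    have h4 := hL _ h3
    rw [un_same] at h4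
    exact (mul_ne_zero ha0 hz) h4)
  have h3 := hL _ h2
  rw [Pi.add_apply, un_same] at h3
  have h4 : (1 + a) * z i = 0 := by rw [add_mul, one_mul, h3]
  have h5 := (mul_eq_zero.1 h4).resolve_right hz
  rw [add_eq_zero' (two_K h i)] at h5
  exact ha1 h5.symm

open Classical in
theorem single_mem_W {i : ι} {J : Set ι} (hij : i ∈ J ∨ Nat.card (K i) = 2) (a : K i) : (Pi.single i a : ∀ i, K i) ∈ W K J := by
  intro j hj hc
  by_cases hji : j = i
  · subst hji
    rcases hij with h | h
    · exact absurd h hj
    · exact absurd h hc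
  · exact Pi.single_eq_of_ne hji a

open Classical in
/-- remove the coordinate `i` -/
noncomputable def rem (i : ι) (v : ∀ i, K i) : ∀ i, K i := Function.update v i 0

open Classical in
theorem rem_add (i : ι) (v w : ∀ i, K i) : rem i (v + w) = rem i v + rem i w := by
  funext j
  by_cases hj : j = i
  · subst hj
    simp [rem]
  · simp [rem, Function.update_of_ne hj]

open Classical in
theorem rem_single (i : ι) (a : K i) : rem i (Pi.single i a) = 0 := by
  funext j
  by_cases hj : j = i
  · subst hj
    simp [rem]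
  · simp [rem, Function.update_of_ne hj, Pi.single_eq_of_ne hj]

open Classical in
theorem rem_eq {i : ι} {v : ∀ i, K i} (hv : v i = 0) : rem i v = v := by
  rw [rem, ← hv, Function.update_eq_self]

open Classical in
theorem rem_i (i : ι) (v : ∀ i, K i) : rem i v i = 0 := by
  rw [rem, Function.update_self]

open Classical in
theorem single_add_rem (i : ι) (v : ∀ i, K i) : Pi.single i (v i) + rem i v = v := by
  funext j
  by_cases hj : j = i
  · subst hj
    simp [rem]
  · simp [rem, Function.update_of_ne hj, Pi.single_eq_of_ne hj]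

open Classical in
theorem un_single (i : ι) (b a : K i) : un i b * Pi.single i a = Pi.single i (b * a) := by
  funext j
  by_cases hj : j = i
  · subst hj
    rw [un_same, Pi.single_eq_same, Pi.single_eq_same]
  · rw [un_ne hj, Pi.single_eq_of_ne hj, Pi.single_eq_of_ne hj]

open Classical in
theorem rem_mem_W {i : ι} {v : ∀ i, K i} (hv : v ∈ W K {i}) : rem i v ∈ W K ∅ := by
  intro j _ hc
  by_cases hj : j = i
  · subst hj
    exact rem_i j v
  · rw [rem, Function.update_of_ne hj]
    exact hv j hj hc

theorem W_mono {J J' : Set ι} (h : J ⊆ J') : W K J ≤ W K J' := fun _ hv i hi hc => hv i (fun h' => hi (h h')) hc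

open Classical in
theorem stepC [Finite ι] [∀ i, Finite (K i)] {𝓑 : Set (AddSubgroup (∀ i, K i))} (h : Sys (∀ i, K i) 𝓑) (hi : Inv 𝓑) {i : ι} (hci : Nat.card (K i) ≠ 2)
    {P : ∀ i, K i} (hP : P ∈ W K ∅) (hP0 : P ≠ 0) {a : K i} (ha : a ≠ 0) : ∃ t : K i, t * t = t + 1 ∧ (Pi.single i (t * a) : ∀ i, K i) ∈ blk 𝓑 P (Pi.single i a) := by
  have hPi : P i = 0 := hP i (Set.notMem_empty i) hci
  have hx0 : (Pi.single i a : ∀ i, K i) ≠ 0 := by
    intro h0
    apply ha
    rw [← Pi.single_eq_same (M := K) i a, h0]
    rfl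
  have hPx : P ≠ Pi.single i a := by
    intro h0
    apply ha
    rw [← Pi.single_eq_same (M := K) i a, ← h0]
    exact hPi
  obtain ⟨hB, hPB, hxB⟩ := blk_spec h hP0 hx0 hPx
  generalize blk 𝓑 P (Pi.single i a) = B at *
  have hxi : (Pi.single i a : ∀ i, K i) i = a := Pi.single_eq_same i a
  have hnW : ∀ w ∈ B, w ≠ 0 → P ≠ w → w ∉ W K ∅ := by
    intro w hw hw0 hPw hwW
    have h1 := closedW h hi ∅ B hB P hPB w hw hP0 hw0 hPw hP hwW hxB i (Set.notMem_empty i) hci
    rw [hxi] at h1
    exact ha h1
  have hL : ∀ w ∈ lin h.two P (Pi.single i a), rem i w = 0 ∨ rem i w = P := by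
    rintro w (rfl | rfl | rfl | rfl)
    · left
      rw [rem_eq rfl]
    · right
      exact rem_eq hPi
    · left
      exact rem_single i a
    · right
      rw [rem_add, rem_single, add_zero]
      exact rem_eq hPi
  obtain ⟨v, hvB, hvL⟩ := exists_notMem (card_lin h.two hP0 hx0 hPx) (h.h8 B hB)
  have hBW : B ≤ W K {i} := closedW h hi {i} B hB P hPB _ hxB hP0 hx0 hPx (W_mono (Set.empty_subset _) hP) (single_mem_W (J := {i}) (Or.inl (Set.mem_singleton i)) a)
  have hv' : rem i v ∈ W K ∅ := rem_mem_W (hBW hvB)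
  have hdec := single_add_rem i v
  by_cases hcase : rem i v = 0 ∨ rem i v = P
  · -- second case
    have hrB : rem i v ∈ B := by
      rcases hcase with h1 | h1
      · rw [h1]; exact B.zero_mem
      · rw [h1]; exact hPB
    have hrL : rem i v ∈ lin h.two P (Pi.single i a) := by
      rcases hcase with h1 | h1
      · rw [h1]; exact Or.inl rfl
      · rw [h1]; exact Or.inr (Or.inl rfl)
    have hv1 : (Pi.single i (v i) : ∀ i, K i) = v + rem i v := by
      nth_rewrite 2 [← hdec]
      rw [add_assoc, h.two, add_zero]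
    have hv1B : (Pi.single i (v i) : ∀ i, K i) ∈ B := by
      rw [hv1]
      exact B.add_mem hvB hrB
    have hv1L : (Pi.single i (v i) : ∀ i, K i) ∉ lin h.two P (Pi.single i a) := by
      intro h1
      apply hvL
      rw [← hdec]
      exact AddSubgroup.add_mem _ h1 hrL
    have hy0 : v i ≠ 0 := by
      intro h1
      apply hv1L
      rw [h1, Pi.single_zero]
      exact Or.inl rfl
    have hya : v i ≠ a := by
      intro h1
      apply hv1L
      rw [h1]
      exact Or.inr (Or.inr (Or.inl rfl))
    have ht0 : v i / a ≠ 0 := div_ne_zero hy0 ha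
    have hta : v i / a * a = v i := div_mul_cancel₀ _ ha
    have h1 := inv_fix h hi (un_mul ht0) hB hP0 hx0 hPx hPB hxB (by rw [un_fix _ hPi]; exact hPB) (by rw [un_single, hta]; exact hv1B) _ hv1B
    rw [un_single] at h1
    have ht1 : v i / a ≠ 1 := by
      intro h2
      rw [h2, one_mul] at hta
      exact hya hta.symm
    have h2 : (Pi.single i (v i / a * v i) : ∀ i, K i) ∉ lin h.two P (Pi.single i a) := by
      rintro (h3 | h3 | h3 | h3)
      · have h4 := congrFun h3 i
        rw [Pi.single_eq_same] at h4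
        exact (mul_ne_zero ht0 hy0) h4
      · have h4 := congrFun h3 i
        rw [Pi.single_eq_same, hPi] at h4
        exact (mul_ne_zero ht0 hy0) h4
      · have h4 := congrFun h3 i
        rw [Pi.single_eq_same, Pi.single_eq_same] at h4
        have h5 : (v i / a) * (v i / a) = 1 := by
          have h6 : (v i / a) * (v i / a) * a = 1 * a := by rw [mul_assoc, hta, h4, one_mul]
          exact mul_right_cancel₀ ha h6
        have h7 : (v i / a + 1) * (v i / a + 1) = 0 := by
          have h8 : (v i / a + 1) * (v i / a + 1) = (v i / a) * (v i / a) + (v i / a + v i / a) + 1 := by ring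
          rw [h8, h5, two_K h, add_zero, two_K h]
        have h9 := mul_self_eq_zero.1 h7
        rw [add_eq_zero' (two_K h i)] at h9
        exact ht1 h9
      · have h4 := congrArg (rem i) h3
        rw [rem_single, rem_add, rem_single, add_zero, rem_eq hPi] at h4
        exact hP0 h4.symm
    have h3 := add_mem_of_card (card_lin h.two hP0 hx0 hPx) (h.h8 B hB) ((lin_le h.two).2 ⟨hPB, hxB⟩) hv1B h1 hv1L h2
    rw [← Pi.single_add] at h3
    have hne : v i + v i / a * v i ≠ 0 := by
      intro h4
      have h5 : (1 + v i / a) * v i = 0 := by rw [add_mul, one_mul, h4]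
      have h6 := (mul_eq_zero.1 h5).resolve_right hy0
      rw [add_eq_zero' (two_K h i)] at h6
      exact ht1 h6.symm
    rcases h3 with h4 | h4 | h4 | h4
    · have h5 := congrFun h4 i
      rw [Pi.single_eq_same] at h5
      exact absurd h5 hne
    · have h5 := congrFun h4 i
      rw [Pi.single_eq_same, hPi] at h5
      exact absurd h5 hne
    · refine ⟨v i / a, ?_, by rw [hta]; exact hv1B⟩
      have h5 := congrFun h4 i
      rw [Pi.single_eq_same, Pi.single_eq_same] at h5
      have h6 : v i / a + (v i / a) * (v i / a) = 1 := by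
        have h7 : (v i / a + (v i / a) * (v i / a)) * a = 1 * a := by rw [add_mul, mul_assoc, hta, h5, one_mul]
        exact mul_right_cancel₀ ha h7
      rw [← h6, ← add_assoc, two_K h, zero_add]
    · have h5 := congrArg (rem i) h4
      rw [rem_single, rem_add, rem_single, add_zero, rem_eq hPi] at h5
      exact absurd h5.symm hP0
  · -- first case
    exfalso
    rw [not_or] at hcase
    obtain ⟨hr0, hrP⟩ := hcase
    have hy0 : v i ≠ 0 := by
      intro h1
      have h2 := rem_eq h1
      rw [h2] at hr0 hrP hv'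
      exact hnW v hvB hr0 (fun h3 => hrP h3.symm) hv'
    have hya : v i ≠ a := by
      intro h1
      have h2 : v + Pi.single i a = rem i v := by
        nth_rewrite 1 [← hdec]
        rw [h1, add_comm, ← add_assoc, h.two, zero_add]
      have h3 : rem i v ∈ B := by
        rw [← h2]
        exact B.add_mem hvB hxB
      exact hnW _ h3 hr0 (fun h3 => hrP h3.symm) hv'
    have hay : a + v i ≠ 0 := by
      intro h1
      rw [add_eq_zero' (two_K h i)] at h1
      exact hya h1.symm
    have ht0 : (a + v i) / v i ≠ 0 := div_ne_zero hay hy0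
    have hta : (a + v i) / v i * v i = a + v i := div_mul_cancel₀ _ hy0
    have hv0 : v ≠ 0 := by
      intro h1
      exact hy0 (by rw [h1]; rfl)
    have hPv : P ≠ v := by
      intro h1
      exact hy0 (by rw [← h1]; exact hPi)
    have huv : un i ((a + v i) / v i) * v = v + Pi.single i a := by
      funext j
      by_cases hj : j = i
      · subst hj
        rw [un_same, hta, Pi.add_apply, Pi.single_eq_same, add_comm]
      · rw [un_ne hj, Pi.add_apply, Pi.single_eq_of_ne hj, add_zero]
    have h1 := inv_fix h hi (un_mul ht0) hB hP0 hv0 hPv hPB hvB (by rw [un_fix _ hPi]; exact hPB) (by rw [huv]; exact B.add_mem hvB hxB) _ hxB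
    rw [un_single] at h1
    have h2 : (Pi.single i ((a + v i) / v i * a) : ∀ i, K i) ∉ lin h.two P (Pi.single i a) := by
      rintro (h3 | h3 | h3 | h3)
      · have h4 := congrFun h3 i
        rw [Pi.single_eq_same] at h4
        exact (mul_ne_zero ht0 ha) h4
      · have h4 := congrFun h3 i
        rw [Pi.single_eq_same, hPi] at h4
        exact (mul_ne_zero ht0 ha) h4
      · have h4 := congrFun h3 i
        rw [Pi.single_eq_same, Pi.single_eq_same] at h4
        have h5 : (a + v i) / v i = 1 := mul_right_cancel₀ ha (by rw [h4, one_mul])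
        rw [h5, one_mul] at hta
        exact ha (by simpa using hta)
      · have h4 := congrArg (rem i) h3
        rw [rem_single, rem_add, rem_single, add_zero, rem_eq hPi] at h4
        exact hP0 h4.symm
    have h3 := add_mem_of_card (card_lin h.two hP0 hx0 hPx) (h.h8 B hB) ((lin_le h.two).2 ⟨hPB, hxB⟩) h1 hvB h2 hvL
    have h4 := hL _ h3
    rw [rem_add, rem_single, zero_add] at h4
    exact h4.elim hr0 hrP

open Classical in
/-- the vectors fixed by all units: zero, and at most one other vector -/
theorem uniqueP [Finite ι] [∀ i, Finite (K i)] {𝓑 : Set (AddSubgroup (∀ i, K i))} (h : Sys (∀ i, K i) 𝓑) (hi : Inv 𝓑) {i : ι} (hci : Nat.card (K i) ≠ 2)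
    {P P' : ∀ i, K i} (hP : P ∈ W K ∅) (hP0 : P ≠ 0) (hP' : P' ∈ W K ∅) (hP0' : P' ≠ 0) : P = P' := by
  by_contra hne
  obtain ⟨t, ht, hB⟩ := stepC h hi hci hP hP0 (one_ne_zero (α := K i))
  obtain ⟨t', ht', hB'⟩ := stepC h hi hci hP' hP0' (one_ne_zero (α := K i))
  rw [mul_one] at hB hB'
  have hx0 : (Pi.single i 1 : ∀ i, K i) ≠ 0 := by
    intro h0
    apply one_ne_zero (α := K i)
    rw [← Pi.single_eq_same (M := K) i 1, h0]
    rfl
  have hx : ∀ Q : ∀ i, K i, Q ∈ W K ∅ → Q ≠ Pi.single i 1 := by
    intro Q hQ h0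
    have h1 := hQ i (Set.notMem_empty i) hci
    rw [h0, Pi.single_eq_same] at h1
    exact one_ne_zero h1
  obtain ⟨h1, h2, h3⟩ := blk_spec h hP0 hx0 (hx P hP)
  obtain ⟨h1', h2', h3'⟩ := blk_spec h hP0' hx0 (hx P' hP')
  have ht0 : t ≠ 0 := by
    intro h4
    rw [h4, mul_zero, zero_add] at ht
    exact zero_ne_one ht
  have ht1 : t ≠ 1 := by
    intro h4
    rw [h4, mul_one, two_K h] at ht
    exact one_ne_zero ht
  have hy : (Pi.single i t : ∀ i, K i) ∈ blk 𝓑 P' (Pi.single i 1) := by
    have h4 : (t + t') * (t + t' + 1) = 0 := by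
      have h5 : (t + t') * (t + t' + 1) = t * t + t' * t' + (t * t' + t * t') + (t + t') := by ring
      rw [h5, ht, ht', two_K h, add_zero]
      have h6 : t + 1 + (t' + 1) + (t + t') = (t + t) + (t' + t') + (1 + 1) := by ring
      rw [h6, two_K h i t, two_K h i t', two_K h i 1, add_zero, add_zero]
    rcases mul_eq_zero.1 h4 with h5 | h5
    · rw [add_eq_zero' (two_K h i)] at h5
      rw [h5]
      exact hB'
    · have h6 : t = t' + 1 := by
        rw [add_assoc, add_eq_zero' (two_K h i)] at h5
        exact h5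
      rw [h6, Pi.single_add]
      exact AddSubgroup.add_mem _ hB' h3'
  have hs0 : (Pi.single i t : ∀ i, K i) ≠ 0 := by
    intro h0
    apply ht0
    rw [← Pi.single_eq_same (M := K) i t, h0]
    rfl
  have hs1 : (Pi.single i 1 : ∀ i, K i) ≠ Pi.single i t := by
    intro h0
    apply ht1
    have h4 := congrFun h0 i
    rw [Pi.single_eq_same, Pi.single_eq_same] at h4
    exact h4.symm
  have hEq := h.uq _ _ _ _ h1 h1' hx0 hs0 hs1 h3 hB h3' hy
  rw [← hEq] at h2'
  have h5 := closedW h hi ∅ _ h1 P h2 P' h2' hP0 hP0' hne hP hP' h3 i (Set.notMem_empty i) hci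
  rw [Pi.single_eq_same] at h5
  exact one_ne_zero h5

end

end Pool.Agent.helper54.QU
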