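import Pool.Agent.helper54.QU.Prod

/-!
# Part B, continued: the dimensions
-/

set_option autoImplicit false

namespace Pool.Agent.helper54.QU

section
variable {ι : Type} {K : ι → Type} [∀ i, Field (K i)]

open Classical in
theorem cardW [Finite ι] [∀ i, Finite (K i)] {i : ι} {J : Set ι} (hiJ : i ∉ J) (hc : Nat.card (K i) ≠ 2) :
    Nat.card (W K (insert i J)) = Nat.card (K i) * Nat.card (W K J) := by
  rw [← Nat.card_prod]
  refine Nat.card_congr ⟨fun v => (v.1 i, ⟨rem i v.1, ?_⟩), fun p => ⟨Pi.single i p.1 + p.2.1, ?_⟩, ?_, ?_⟩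
  · intro j hj hcj
    by_cases hji : j = i
    · subst hji
      exact rem_i j _
    · rw [rem, Function.update_of_ne hji]
      refine v.2 j ?_ hcj
      rw [Set.mem_insert_iff, not_or]
      exact ⟨hji, hj⟩
  · exact AddSubgroup.add_mem _ (single_mem_W (Or.inl (Set.mem_insert i J)) _) (W_mono (Set.subset_insert i J) p.2.2)
  · intro v
    exact Subtype.ext (single_add_rem i v.1)
  · rintro ⟨a, w, hw⟩
    have hwi : w i = 0 := hw i hiJ hc
    refine Prod.ext ?_ (Subtype.ext ?_)
    · show (Pi.single i a + w) i = a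
      rw [Pi.add_apply, Pi.single_eq_same, hwi, add_zero]
    · show rem i (Pi.single i a + w) = w
      rw [rem_add, rem_single, zero_add, rem_eq hwi]

theorem card_K [∀ i, Finite (K i)] {𝓑 : Set (AddSubgroup (∀ i, K i))} (h : Sys (∀ i, K i) 𝓑) (i : ι) : ∃ l, 0 < l ∧ Nat.card (K i) = 2 ^ l := by
  have hF : Fintype (K i) := Fintype.ofFinite _
  have hchar : CharP (K i) 2 := CharTwo.of_one_ne_zero_of_two_eq_zero one_ne_zero (by
    have h1 := two_K h i 1
    rw [← h1]
    norm_num)
  obtain ⟨l, -, hl⟩ := FiniteField.card (K i) 2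
  exact ⟨l, l.pos, by rw [Nat.card_eq_fintype_card, hl]⟩

theorem two_le {l c : ℕ} (h0 : 0 < l) (h1 : c = 2 ^ l) (h2 : c ≠ 2) : 2 ≤ l := by
  by_contra h3
  have h4 : l = 1 := by omega
  rw [h4, pow_one] at h1
  exact h2 h1

open Classical in
theorem mem_rg {i : ι} (v : ∀ i, K i) : v ∈ (AddMonoidHom.single K i).range ↔ rem i v = 0 := by
  constructor
  · rintro ⟨a, rfl⟩
    exact rem_single i a
  · intro h
    refine ⟨v i, ?_⟩
    have h1 := single_add_rem i v
    rw [h, add_zero] at h1
    exact h1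

open Classical in
theorem single_inj (i : ι) : Function.Injective (AddMonoidHom.single K i) := by
  intro a b hab
  have h1 := congrFun hab i
  rw [AddMonoidHom.single_apply, AddMonoidHom.single_apply, Pi.single_eq_same, Pi.single_eq_same] at h1
  exact h1

open Classical in
/-- the number of blocks through `1` inside `K i` is 0 or 1 modulo 7 -/
theorem count_star [Finite ι] [∀ i, Finite (K i)] {𝓑 : Set (AddSubgroup (∀ i, K i))} (h : Sys (∀ i, K i) 𝓑) (hi : Inv 𝓑) (i : ι) :
    ((star 𝓑 (Pi.single i 1)).filter (fun B => B ≤ (AddMonoidHom.single K i).range)).card % 7 = 0 ∨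
    ((star 𝓑 (Pi.single i 1)).filter (fun B => B ≤ (AddMonoidHom.single K i).range)).card % 7 = 1 := by
  have hF : Fintype (K i) := Fintype.ofFinite _
  have h1 := count7 (K := K i) {A | A.map (AddMonoidHom.single K i) ∈ 𝓑} ?_ ?_
    (((star 𝓑 (Pi.single i 1)).filter (fun B => B ≤ (AddMonoidHom.single K i).range)).image (fun B => B.comap (AddMonoidHom.single K i))) ?_
  · rwa [Finset.card_image_of_injOn] at h1
    intro B hB B' hB' hEq
    rw [Finset.coe_filter] at hB hB'
    have h2 : B.comap (AddMonoidHom.single K i) = B'.comap (AddMonoidHom.single K i) := hEq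
    rw [← AddSubgroup.map_comap_eq_self hB.2, h2, AddSubgroup.map_comap_eq_self hB'.2]
  · intro A hA
    rw [← h.h8 _ hA, AddSubgroup.card_map_of_injective (single_inj i)]
  · intro A hA t ht
    obtain ⟨B', hB', hu⟩ := hi (un i t) (un i t⁻¹) (un_mul ht) _ hA
    have h2 : (sm t A).map (AddMonoidHom.single K i) ≤ B' := by
      rintro _ ⟨_, ⟨a, ha, rfl⟩, rfl⟩
      have h3 := hu (AddMonoidHom.single K i a) ⟨a, ha, rfl⟩
      rw [AddMonoidHom.single_apply, un_single] at h3
      exact h3
    have h4 : (sm t A).map (AddMonoidHom.single K i) = B' := by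
      refine AddSubgroup.eq_of_le_of_card_ge h2 ?_
      rw [h.h8 B' hB', AddSubgroup.card_map_of_injective (single_inj i)]
      have h5 := h.h8 _ hA
      rw [AddSubgroup.card_map_of_injective (single_inj i)] at h5
      rw [← h5, sm, AddSubgroup.card_map_of_injective (mul_right_injective₀ ht)]
    show (sm t A).map (AddMonoidHom.single K i) ∈ 𝓑
    rw [h4]
    exact hB'
  · intro A
    rw [Finset.mem_image]
    constructor
    · rintro ⟨B, hB, rfl⟩
      rw [Finset.mem_filter, mem_star] at hB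
      refine ⟨?_, ?_⟩
      · show (B.comap (AddMonoidHom.single K i)).map (AddMonoidHom.single K i) ∈ 𝓑
        rw [AddSubgroup.map_comap_eq_self hB.2]
        exact hB.1.1
      · rw [AddSubgroup.mem_comap, AddMonoidHom.single_apply]
        exact hB.1.2
    · rintro ⟨hA, h1A⟩
      refine ⟨A.map (AddMonoidHom.single K i), ?_, AddSubgroup.comap_map_eq_self_of_injective (single_inj i) A⟩
      rw [Finset.mem_filter, mem_star]
      exact ⟨⟨hA, ⟨1, h1A, rfl⟩⟩, AddSubgroup.map_le_range _ _⟩

open Classical in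
/-- step D: the dimension of `K i` is not divisible by 6 -/
theorem stepD [Finite ι] [∀ i, Finite (K i)] {𝓑 : Set (AddSubgroup (∀ i, K i))} (h : Sys (∀ i, K i) 𝓑) (hi : Inv 𝓑) {i : ι} (hci : Nat.card (K i) ≠ 2)
    {P : ∀ i, K i} (hP : P ∈ W K ∅) (hall : ∀ Q ∈ W K ∅, Q = 0 ∨ Q = P) (hc2 : Nat.card (W K ∅) = 2) {l : ℕ} (hl : Nat.card (K i) = 2 ^ l)
    (h6 : l % 6 = 0) : False := by
  have hfin : Fintype (∀ i, K i) := Fintype.ofFinite _
  have hPi : P i = 0 := hP i (Set.notMem_empty i) hci
  have hx0 : (Pi.single i 1 : ∀ i, K i) ≠ 0 := by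
    intro h0
    apply one_ne_zero (α := K i)
    rw [← Pi.single_eq_same (M := K) i 1, h0]
    rfl
  have hxR : (Pi.single i 1 : ∀ i, K i) ∈ (AddMonoidHom.single K i).range := ⟨1, rfl⟩
  have hRW : (AddMonoidHom.single K i).range ≤ W K {i} := by
    rintro _ ⟨a, rfl⟩
    exact single_mem_W (J := {i}) (Or.inl (Set.mem_singleton i)) a
  have hxW : (Pi.single i 1 : ∀ i, K i) ∈ W K {i} := hRW hxR
  have hcW : Nat.card (W K {i}) = 2 ^ l * 2 := by
    rw [← hl, ← hc2, ← cardW (Set.notMem_empty i) hci, insert_empty_eq]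
  have hcR : Nat.card (AddMonoidHom.single K i).range = 2 ^ l := by
    rw [← hl]
    exact Nat.card_congr (AddMonoidHom.ofInjective (single_inj i)).symm.toEquiv
  have hcl := closedW h hi {i}
  have hsum : ∀ z ∈ W K {i}, ∀ z' ∈ W K {i}, z ∉ (AddMonoidHom.single K i).range → z' ∉ (AddMonoidHom.single K i).range → z + z' ∈ (AddMonoidHom.single K i).range := by
    intro z hz z' hz' h1 h2
    rw [mem_rg] at h1 h2 ⊢
    rw [rem_add, (hall _ (rem_mem_W hz)).resolve_left h1, (hall _ (rem_mem_W hz')).resolve_left h2, h.two]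
  generalize hR : (AddMonoidHom.single K i).range = R at *
  -- the two sets of points
  have hA1 : (Finset.univ.filter (fun z : ∀ i, K i => z ∈ W K {i} ∧ z ∉ R)).card = 2 ^ l := by
    have h1 := Finset.card_filter_add_card_filter_not (s := Finset.univ.filter (fun z : ∀ i, K i => z ∈ W K {i})) (fun z => z ∈ R)
    rw [Finset.filter_filter, Finset.filter_filter] at h1
    have h2 : Finset.univ.filter (fun z : ∀ i, K i => z ∈ W K {i} ∧ z ∈ R) = Finset.univ.filter (fun z : ∀ i, K i => z ∈ R) :=
      Finset.filter_congr fun z _ => ⟨fun h => h.2, fun h => ⟨hRW h, h⟩⟩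
    have h3 : (Finset.univ.filter (fun z : ∀ i, K i => z ∈ R)).card = 2 ^ l := by
      rw [← hcR, Nat.card_eq_fintype_card, Fintype.card_subtype]
    have h4 : (Finset.univ.filter (fun z : ∀ i, K i => z ∈ W K {i})).card = 2 ^ l * 2 := by
      rw [← hcW, Nat.card_eq_fintype_card, Fintype.card_subtype]
    rw [h2, h3, h4] at h1
    omega
  have hA2 : (Finset.univ.filter (fun z : ∀ i, K i => z ∈ R ∧ z ≠ 0 ∧ z ≠ Pi.single i 1)).card = 2 ^ l - 2 := by
    rw [card_pts2 R hx0 hxR, hcR]
  have hs1 := lsum h hx0 (Finset.univ.filter (fun z : ∀ i, K i => z ∈ W K {i} ∧ z ∉ R)) (by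
    intro a ha
    rw [Finset.mem_filter] at ha
    refine ⟨?_, ?_⟩
    · intro h0
      apply ha.2.2
      rw [h0]
      exact R.zero_mem
    · intro h0
      apply ha.2.2
      rw [h0]
      exact hxR)
  have hs2 := lsum h hx0 (Finset.univ.filter (fun z : ∀ i, K i => z ∈ R ∧ z ≠ 0 ∧ z ≠ Pi.single i 1)) (by
    intro a ha
    rw [Finset.mem_filter] at ha
    exact ha.2.2)
  rw [hA1] at hs1
  rw [hA2] at hs2
  have hpt : ∀ B ∈ star 𝓑 (Pi.single i 1 : ∀ i, K i), 2 * ((Finset.univ.filter (fun z : ∀ i, K i => z ∈ R ∧ z ≠ 0 ∧ z ≠ Pi.single i 1)).filter (fun z => z ∈ B)).card =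
      12 * (if B ≤ R then 1 else 0) + ((Finset.univ.filter (fun z : ∀ i, K i => z ∈ W K {i} ∧ z ∉ R)).filter (fun z => z ∈ B)).card := by
    intro B hB
    rw [mem_star] at hB
    obtain ⟨hB, hxB⟩ := hB
    by_cases hBR : B ≤ R
    · rw [if_pos hBR]
      have h1 : (Finset.univ.filter (fun z : ∀ i, K i => z ∈ W K {i} ∧ z ∉ R)).filter (fun z => z ∈ B) = ∅ := by
        rw [Finset.filter_eq_empty_iff]
        intro z hz hzB
        rw [Finset.mem_filter] at hz
        exact hz.2.2 (hBR hzB)
      have h2 : (Finset.univ.filter (fun z : ∀ i, K i => z ∈ R ∧ z ≠ 0 ∧ z ≠ Pi.single i 1)).filter (fun z => z ∈ B) = Finset.univ.filter (fun z : ∀ i, K i => z ∈ B ∧ z ≠ 0 ∧ z ≠ Pi.single i 1) := by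
        ext z
        simp only [Finset.mem_filter, Finset.mem_univ, true_and]
        exact ⟨fun h => ⟨h.2, h.1.2⟩, fun h => ⟨⟨hBR h.1, h.2⟩, h.1⟩⟩
      rw [h1, h2, card_pts2 B hx0 hxB, h.h8 B hB, Finset.card_empty]
    · rw [if_neg hBR]
      by_cases hBW : B ≤ W K {i}
      · obtain ⟨b, hb, hbR⟩ : ∃ b ∈ B, b ∉ R := by
          by_contra h1
          push Not at h1
          exact hBR h1
        have h1 : (Finset.univ.filter (fun z : ∀ i, K i => z ∈ W K {i} ∧ z ∉ R)).filter (fun z => z ∈ B) = (Finset.univ.filter (fun z : ∀ i, K i => z ∈ B)).filter (fun z => ¬ z ∈ R) := by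
          ext z
          simp only [Finset.mem_filter, Finset.mem_univ, true_and]
          exact ⟨fun h => ⟨h.2, h.1.2⟩, fun h => ⟨⟨hBW h.1, h.2⟩, h.1⟩⟩
        have h2 : (Finset.univ.filter (fun z : ∀ i, K i => z ∈ R ∧ z ≠ 0 ∧ z ≠ Pi.single i 1)).filter (fun z => z ∈ B) = Finset.univ.filter (fun z : ∀ i, K i => z ∈ B ⊓ R ∧ z ≠ 0 ∧ z ≠ Pi.single i 1) := by
          ext z
          simp only [Finset.mem_filter, Finset.mem_univ, true_and, AddSubgroup.mem_inf]
          exact ⟨fun h => ⟨⟨h.2, h.1.1⟩, h.1.2⟩, fun h => ⟨⟨h.1.2, h.2⟩, h.1.1⟩⟩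
        have h3 : ((Finset.univ.filter (fun z : ∀ i, K i => z ∈ B)).filter (fun z => z ∈ R)).card = ((Finset.univ.filter (fun z : ∀ i, K i => z ∈ B)).filter (fun z => ¬ z ∈ R)).card := by
          refine Finset.card_bij (fun z _ => z + b) ?_ ?_ ?_
          · intro z hz
            rw [Finset.mem_filter, Finset.mem_filter] at hz ⊢
            refine ⟨⟨Finset.mem_univ _, B.add_mem hz.1.2 hb⟩, ?_⟩
            intro h4
            exact hbR ((AddSubgroup.add_mem_cancel_left R hz.2).1 h4)
          · intro z _ z' _ hzz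
            exact add_right_cancel hzz
          · intro z hz
            rw [Finset.mem_filter, Finset.mem_filter] at hz
            refine ⟨z + b, ?_, ?_⟩
            · rw [Finset.mem_filter, Finset.mem_filter]
              exact ⟨⟨Finset.mem_univ _, B.add_mem hz.1.2 hb⟩, hsum z (hBW hz.1.2) b (hBW hb) hz.2 hbR⟩
            · rw [add_assoc, h.two, add_zero]
        have h4 := Finset.card_filter_add_card_filter_not (s := Finset.univ.filter (fun z : ∀ i, K i => z ∈ B)) (fun z => z ∈ R)
        have h5 : (Finset.univ.filter (fun z : ∀ i, K i => z ∈ B)).card = 8 := by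
          rw [← h.h8 B hB, Nat.card_eq_fintype_card, Fintype.card_subtype]
        have h6 : Nat.card (B ⊓ R : AddSubgroup (∀ i, K i)) = ((Finset.univ.filter (fun z : ∀ i, K i => z ∈ B)).filter (fun z => z ∈ R)).card := by
          rw [Nat.card_eq_fintype_card, Fintype.card_subtype, Finset.filter_filter]
          exact congrArg Finset.card (Finset.filter_congr fun z _ => AddSubgroup.mem_inf)
        rw [h1, h2, card_pts2 (B ⊓ R) hx0 ⟨hxB, hxR⟩, h6]
        omega
      · have h1 : (Finset.univ.filter (fun z : ∀ i, K i => z ∈ W K {i} ∧ z ∉ R)).filter (fun z => z ∈ B) = ∅ := by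
          rw [Finset.filter_eq_empty_iff]
          intro z hz hzB
          rw [Finset.mem_filter] at hz
          refine hBW (hcl B hB _ hxB z hzB hx0 ?_ ?_ hxW hz.2.1)
          · intro h0
            apply hz.2.2
            rw [h0]
            exact R.zero_mem
          · intro h0
            apply hz.2.2
            rw [← h0]
            exact hxR
        have h2 : (Finset.univ.filter (fun z : ∀ i, K i => z ∈ R ∧ z ≠ 0 ∧ z ≠ Pi.single i 1)).filter (fun z => z ∈ B) = ∅ := by
          rw [Finset.filter_eq_empty_iff]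
          intro z hz hzB
          rw [Finset.mem_filter] at hz
          exact hBW (hcl B hB _ hxB z hzB hx0 hz.2.2.1 hz.2.2.2.symm hxW (hRW hz.2.1))
        rw [h1, h2, Finset.card_empty]
  have hS := Finset.sum_congr rfl hpt
  rw [← Finset.mul_sum, Finset.sum_add_distrib, ← Finset.mul_sum, ← hs1, ← hs2, ← Finset.card_filter] at hS
  have h7 := count_star h hi i
  rw [hR] at h7
  have h21 := pow_mod21 l
  rw [h6, pow_zero] at h21
  generalize ((star 𝓑 (Pi.single i 1 : ∀ i, K i)).filter (fun B => B ≤ R)).card = s at *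
  generalize 2 ^ l = q at *
  omega

open Classical in
theorem prod_main [Finite ι] [∀ i, Finite (K i)] {𝓑 : Set (AddSubgroup (∀ i, K i))} (h : Sys (∀ i, K i) 𝓑) (hi : Inv 𝓑) :
    (∀ i, Nat.card (K i) = 2) ∨ (∃ i : ι, ∀ j, j = i) ∨
    (∃ i j, i ≠ j ∧ (∀ k, k = i ∨ k = j) ∧ Nat.card (K j) = 2 ∧ ∃ l, l % 6 = 2 ∧ Nat.card (K i) = 2 ^ l) := by
  have hfin : Fintype (∀ i, K i) := Fintype.ofFinite _
  by_cases hall2 : ∀ i, Nat.card (K i) = 2
  · exact Or.inl hall2
  right
  push Not at hall2
  obtain ⟨i, hci⟩ := hall2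
  obtain ⟨l, hl0, hl⟩ := card_K h i
  have hl2 := two_le hl0 hl hci
  have hs0 : ∀ j, (Pi.single j 1 : ∀ i, K i) ≠ 0 := by
    intro j h0
    apply one_ne_zero (α := K j)
    rw [← Pi.single_eq_same (M := K) j 1, h0]
    rfl
  by_cases hW : ∀ v ∈ W K ∅, v = 0
  · left
    have hne : ∀ j, Nat.card (K j) ≠ 2 := fun j hj => hs0 j (hW _ (single_mem_W (Or.inr hj) 1))
    have hc1 : Nat.card (W K (∅ : Set ι)) = 1 := by
      rw [AddSubgroup.card_eq_one]
      exact (AddSubgroup.eq_bot_iff_forall _).2 hW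
    refine ⟨i, fun j => ?_⟩
    by_contra hji
    obtain ⟨m, hm0, hm⟩ := card_K h j
    have hm2 := two_le hm0 hm (hne j)
    have hi1 : Nat.card (W K (insert i ∅)) = 2 ^ l := by rw [cardW (Set.notMem_empty i) hci, hc1, hl, mul_one]
    have hj1 : Nat.card (W K (insert j ∅)) = 2 ^ m := by rw [cardW (Set.notMem_empty j) (hne j), hc1, hm, mul_one]
    have hij : j ∉ (insert i ∅ : Set ι) := by
      rw [insert_empty_eq, Set.mem_singleton_iff]
      exact hji
    have hij1 : Nat.card (W K (insert j (insert i ∅))) = 2 ^ (m + l) := by rw [cardW hij (hne j), hi1, hm, pow_add]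
    have e1 := closed_card h (closedW h hi _) hl2 hi1
    have e2 := closed_card h (closedW h hi _) hm2 hj1
    have e3 := closed_card h (closedW h hi _) (by omega) hij1
    omega
  · right
    push Not at hW
    obtain ⟨P, hP, hP0⟩ := hW
    have hall : ∀ Q ∈ W K ∅, Q = 0 ∨ Q = P := by
      intro Q hQ
      by_cases hQ0 : Q = 0
      · exact Or.inl hQ0
      · exact Or.inr (uniqueP h hi hci hQ hQ0 hP hP0)
    have hc2 : Nat.card (W K (∅ : Set ι)) = 2 := by
      rw [Nat.card_eq_two_iff]
      refine ⟨⟨0, (W K ∅).zero_mem⟩, ⟨P, hP⟩, ?_, ?_⟩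
      · intro h0
        exact hP0 (congrArg Subtype.val h0).symm
      · ext Q
        simp only [Set.mem_insert_iff, Set.mem_singleton_iff, Set.mem_univ, iff_true]
        rcases hall Q.1 Q.2 with h1 | h1
        · exact Or.inl (Subtype.ext h1)
        · exact Or.inr (Subtype.ext h1)
    have hdim : ∀ k, Nat.card (K k) ≠ 2 → ∀ m, Nat.card (K k) = 2 ^ m → m % 6 = 2 := by
      intro k hck m hm
      have hm2 : 1 ≤ m := by
        by_contra h1
        have h2 : m = 0 := by omega
        rw [h2, pow_zero] at hm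
        have h3 : 1 < Nat.card (K k) := Finite.one_lt_card
        omega
      have h1 : Nat.card (W K (insert k ∅)) = 2 ^ (m + 1) := by rw [cardW (Set.notMem_empty k) hck, hc2, hm, pow_succ]
      have e1 := closed_card h (closedW h hi _) (by omega) h1
      have e2 : m % 6 ≠ 0 := fun h6 => stepD h hi hck hP hall hc2 hm h6
      omega
    have hothers : ∀ k, k ≠ i → Nat.card (K k) = 2 := by
      intro k hki
      by_contra hck
      obtain ⟨m, hm0, hm⟩ := card_K h k
      have hi1 : Nat.card (W K (insert i ∅)) = 2 ^ (l + 1) := by rw [cardW (Set.notMem_empty i) hci, hc2, hl, pow_succ]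
      have hik : k ∉ (insert i ∅ : Set ι) := by
        rw [insert_empty_eq, Set.mem_singleton_iff]
        exact hki
      have h1 : Nat.card (W K (insert k (insert i ∅))) = 2 ^ (m + (l + 1)) := by rw [cardW hik hck, hi1, hm, ← pow_add]
      have e1 := closed_card h (closedW h hi _) (by omega) h1
      have e2 := hdim k hck m hm
      have e3 := hdim i hci l hl
      omega
    obtain ⟨j, hj⟩ : ∃ j, P j ≠ 0 := by
      by_contra h1
      push Not at h1
      exact hP0 (funext h1)
    have hji : j ≠ i := by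
      intro h1
      rw [h1] at hj
      exact hj (hP i (Set.notMem_empty i) hci)
    refine ⟨i, j, hji.symm, ?_, hothers j hji, l, hdim i hci l hl, hl⟩
    intro k
    by_cases hki : k = i
    · exact Or.inl hki
    · right
      by_contra hkj
      have h1 := (hall _ (single_mem_W (K := K) (J := ∅) (Or.inr (hothers k hki)) 1)).resolve_left (hs0 k)
      apply hj
      rw [← h1]
      exact Pi.single_eq_of_ne (Ne.symm hkj) 1

end

end Pool.Agent.helper54.QU
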